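import Mathlib

set_option autoImplicit false
open Filter Real

namespace Pool.Agent.helper5.CB

/-- `k n = ⌊(1-δ) log₂ n⌋ + 1` -/
noncomputable def kk (δ : ℝ) (n : ℕ) : ℕ := ⌊(1 - δ) * logb 2 n⌋₊ + 1

/-- `B n = ⌊n ^ (δ - 2c)⌋` -/
noncomputable def BB (δ c : ℝ) (n : ℕ) : ℕ := ⌊(n : ℝ) ^ (δ - 2 * c)⌋₊

/-- `M n = ⌊n / (k n * B n)⌋` -/
noncomputable def MM (δ c : ℝ) (n : ℕ) : ℕ := n / (kk δ n * BB δ c n)

/-- the growth facts used below -/
theorem asym_growth {c : ℝ} (hc : 0 < c) :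
    ∀ᶠ L : ℝ in atTop, 1 / c ≤ L ∧ 10 ≤ L ∧ (L + 10) ^ 2 ≤ (2 : ℝ) ^ (c / 2 * L) := by
  have ha : 0 < c / 2 * Real.log 2 := by
    have := Real.log_pos (by norm_num : (1 : ℝ) < 2)
    positivity
  have h1 : Tendsto (fun L : ℝ => c / 2 * Real.log 2 * L) atTop atTop :=
    tendsto_id.const_mul_atTop ha
  have h2 := (isLittleO_pow_exp_atTop (n := 3)).comp_tendsto h1
  have h3 := h2.bound (by norm_num : (0 : ℝ) < 1)
  filter_upwards [h3, eventually_ge_atTop (1 / c), eventually_ge_atTop (10 : ℝ),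
    eventually_ge_atTop (4 / (c / 2 * Real.log 2) ^ 3)] with L h4 h5 h6 h7
  refine ⟨h5, h6, ?_⟩
  simp only [Function.comp, one_mul] at h4
  rw [Real.norm_of_nonneg (by positivity), Real.norm_of_nonneg (by positivity)] at h4
  have e : (2 : ℝ) ^ (c / 2 * L) = Real.exp (c / 2 * Real.log 2 * L) := by
    rw [Real.rpow_def_of_pos (by norm_num)]
    congr 1
    ring
  rw [e]
  refine le_trans ?_ h4
  rw [div_le_iff₀ (by positivity)] at h7
  have h8 : (c / 2 * Real.log 2 * L) ^ 3 = (L * (c / 2 * Real.log 2) ^ 3) * L ^ 2 := by ring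
  rw [h8]
  have h9 : 4 * L ^ 2 ≤ (L * (c / 2 * Real.log 2) ^ 3) * L ^ 2 :=
    mul_le_mul_of_nonneg_right h7 (sq_nonneg L)
  nlinarith

/-- Choice of the parameters. `L = logb 2 n`, `c = (δ(1-δ)-τ)/10 ≤ 1/40`, `R = D = ⌈n^c⌉₊`, `Λ = B / (2 R r)`
(natural division). For large `n`: `Λ ≥ n^(δ-4c)`; `3 r s D^k < Λ^k` because in `log₂`:
`2 + (c/2) L + τ L² + k (1 + c L) < k (δ-4c) L`, using `(1-δ) L ≤ k ≤ 2 L` and `(1-δ)(δ-5c) ≥ τ + 5c`;
`M / 2^k ≥ n^(2c)/(4k) ≥ n^c`; `M k ≤ n`; so the error is at most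
`2^(1 + (c/2) L + τ L² - n^c) + n 2^(-n^c) + 2^(2 n^(c/2) - n^c) ≤ 2^(-n^(c/2))`. -/
theorem params (δ τ c : ℝ) (hδ : 0 < δ) (hδ2 : δ ≤ 1 / 2) (hτ : 0 ≤ τ) (hτδ : τ < δ * (1 - δ))
    (hc : c = (δ * (1 - δ) - τ) / 10) :
    ∀ᶠ n : ℕ in atTop, ∀ r s : ℕ, 1 ≤ r → (r : ℝ) ≤ (n : ℝ) ^ (c / 2) →
      (s : ℝ) ≤ (n : ℝ) ^ (τ * logb 2 n) →
      ∃ R Λ D : ℕ, 2 ≤ kk δ n ∧ kk δ n ≤ D + 1 ∧ MM δ c n * kk δ n * BB δ c n ≤ n ∧
        2 * R * Λ * r ≤ BB δ c n ∧ 1 ≤ R ∧ 1 ≤ Λ ∧ 3 * r * s * D ^ (kk δ n) < Λ ^ (kk δ n) ∧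
        2 * (r : ℝ) * s / 2 ^ D + ((MM δ c n : ℝ) * kk δ n) / 2 ^ R +
          4 ^ r * (2 : ℝ) ^ (-((MM δ c n : ℝ) / 2 ^ (kk δ n))) ≤ (2 : ℝ) ^ (-(n : ℝ) ^ (c / 2)) := by
  have hc0 : 0 < c := by rw [hc]; linarith
  have hδδ : δ * (1 - δ) ≤ 1 / 4 := by nlinarith [sq_nonneg (δ - 1 / 2)]
  have hc1 : c ≤ 1 / 40 := by rw [hc]; linarith
  have hτ1 : τ ≤ 1 / 4 := by linarith
  have hcδ : 10 * c ≤ δ := by rw [hc]; nlinarith
  have hlog : Tendsto (fun n : ℕ => logb 2 (n : ℝ)) atTop atTop :=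
    (Real.tendsto_logb_atTop (by norm_num)).comp tendsto_natCast_atTop_atTop
  filter_upwards [hlog.eventually (asym_growth hc0), eventually_ge_atTop 1] with n hn hn1
  intro r s hr hrX hs
  obtain ⟨L, hL⟩ : ∃ L : ℝ, L = logb 2 (n : ℝ) := ⟨_, rfl⟩
  rw [← hL] at hn hs
  obtain ⟨hLc, hL10, hLX⟩ := hn
  have hn0 : (0 : ℝ) < n := by exact_mod_cast hn1
  have hnL : (n : ℝ) = 2 ^ L := by
    rw [hL, Real.rpow_logb (by norm_num) (by norm_num) hn0]
  have hpow : ∀ y : ℝ, (n : ℝ) ^ y = 2 ^ (L * y) := by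
    intro y
    rw [hnL, ← Real.rpow_mul (by norm_num)]
  obtain ⟨X, hX⟩ : ∃ X : ℝ, X = (2 : ℝ) ^ (c / 2 * L) := ⟨_, rfl⟩
  have hnX : (n : ℝ) ^ (c / 2) = X := by rw [hpow, hX]; congr 1; ring
  rw [← hX] at hLX
  have hXL : L ^ 2 + 20 * L + 100 ≤ X := by
    have e : (L + 10) ^ 2 = L ^ 2 + 20 * L + 100 := by ring
    linarith
  have hL2 : 0 ≤ L ^ 2 := sq_nonneg L
  have hX100 : 100 ≤ X := by linarith
  have hX0 : 0 < X := by linarith
  have hX2 : (2 : ℝ) ^ (c * L) = X ^ 2 := by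
    rw [hX, ← Real.rpow_natCast, ← Real.rpow_mul (by norm_num)]
    congr 1; push_cast; ring
  have hX4 : (2 : ℝ) ^ (2 * c * L) = X ^ 4 := by
    rw [hX, ← Real.rpow_natCast, ← Real.rpow_mul (by norm_num)]
    congr 1; push_cast; ring
  have hcL : 1 ≤ c * L := by
    rw [div_le_iff₀ hc0] at hLc
    linarith
  rw [hnX] at hrX ⊢
  -- k
  obtain ⟨k, hk⟩ : ∃ k : ℕ, k = kk δ n := ⟨_, rfl⟩
  have hδL : 0 ≤ (1 - δ) * L := mul_nonneg (by linarith) (by linarith)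
  have hk1 : (1 - δ) * L ≤ k := by
    rw [hk, kk, ← hL]
    push_cast
    exact (Nat.lt_floor_add_one _).le
  have hk2 : (k : ℝ) ≤ (1 - δ) * L + 1 := by
    rw [hk, kk, ← hL]
    push_cast
    have := Nat.floor_le hδL
    linarith
  have hk3 : (k : ℝ) ≤ L + 1 := by
    have e : (1 - δ) * L = L - δ * L := by ring
    have : 0 ≤ δ * L := mul_nonneg hδ.le (by linarith)
    linarith
  have hkge : 2 ≤ k := by
    have h1 : (4 : ℝ) < k := by
      have : 1 / 2 * L ≤ (1 - δ) * L := mul_le_mul_of_nonneg_right (by linarith) (by linarith)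
      linarith
    have : (4 : ℕ) < k := by exact_mod_cast h1
    omega
  -- B
  obtain ⟨B, hB⟩ : ∃ B : ℕ, B = BB δ c n := ⟨_, rfl⟩
  obtain ⟨Y, hY⟩ : ∃ Y : ℝ, Y = (2 : ℝ) ^ ((δ - 4 * c) * L) := ⟨_, rfl⟩
  have hY1 : 1 ≤ Y := by
    rw [hY]
    apply Real.one_le_rpow (by norm_num)
    have : 0 ≤ δ - 4 * c := by linarith
    positivity
  have hnB : (n : ℝ) ^ (δ - 2 * c) = Y * X ^ 4 := by
    rw [hpow, hY, ← hX4, ← Real.rpow_add (by norm_num)]
    congr 1; ring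
  have hB1 : (B : ℝ) ≤ Y * X ^ 4 := by
    rw [hB, BB, hnB]
    exact Nat.floor_le (by positivity)
  have hB2 : Y * X ^ 4 < B + 1 := by
    rw [hB, BB, hnB]
    exact Nat.lt_floor_add_one _
  have hBpos : 1 ≤ B := by
    have h1 : (1 : ℝ) < B + 1 := by
      have : 1 ≤ X ^ 4 := one_le_pow₀ (by linarith)
      exact lt_of_le_of_lt (one_le_mul_of_one_le_of_one_le hY1 this) hB2
    have h2 : (0 : ℝ) < B := by linarith
    exact_mod_cast h2
  -- M
  obtain ⟨M, hM⟩ : ∃ M : ℕ, M = MM δ c n := ⟨_, rfl⟩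
  have hM' : M = n / (k * B) := by rw [hM, MM, hk, hB]
  have hM1 : M * k * B ≤ n := by
    rw [hM', mul_assoc]
    exact Nat.div_mul_le_self _ _
  have hM2 : (n : ℝ) ≤ (M + 1) * (k * B) := by
    have h1 : n < k * B * (M + 1) := by
      rw [hM']
      exact Nat.lt_mul_div_succ n (by positivity)
    have h2 : (n : ℝ) < k * B * (M + 1) := by exact_mod_cast h1
    linarith
  -- R = D
  obtain ⟨R, hR⟩ : ∃ R : ℕ, R = ⌈X ^ 2⌉₊ := ⟨_, rfl⟩
  have hR1 : X ^ 2 ≤ R := by rw [hR]; exact Nat.le_ceil _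
  have hR2 : (R : ℝ) ≤ X ^ 2 + 1 := by
    rw [hR]
    exact (Nat.ceil_lt_add_one (by positivity)).le
  have hX21 : 1 ≤ X ^ 2 := one_le_pow₀ (by linarith)
  have hR3 : (R : ℝ) ≤ 2 * X ^ 2 := by linarith
  have hRpos : 1 ≤ R := by
    have h1 : (0 : ℝ) < R := lt_of_lt_of_le (by positivity) hR1
    exact_mod_cast h1
  -- Λ
  obtain ⟨Λ, hΛ⟩ : ∃ Λ : ℕ, Λ = B / (2 * R * r) := ⟨_, rfl⟩
  have hΛ1 : 2 * R * Λ * r ≤ B := by
    have h1 : Λ * (2 * R * r) ≤ B := by rw [hΛ]; exact Nat.div_mul_le_self _ _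
    calc 2 * R * Λ * r = Λ * (2 * R * r) := by ring
      _ ≤ B := h1
  have hΛ2 : Y ≤ Λ := by
    have h1 : B < 2 * R * r * (Λ + 1) := by
      rw [hΛ]
      exact Nat.lt_mul_div_succ B (by positivity)
    have h2 : (B : ℝ) + 1 ≤ 2 * R * r * (Λ + 1) := by exact_mod_cast h1
    have h3 : (2 : ℝ) * R * r ≤ 4 * X ^ 3 := by
      have : (R : ℝ) * r ≤ (2 * X ^ 2) * X := mul_le_mul hR3 hrX (by positivity) (by positivity)
      have e1 : (2 : ℝ) * R * r = 2 * (R * r) := by ring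
      have e2 : 4 * X ^ 3 = 2 * ((2 * X ^ 2) * X) := by ring
      linarith
    have h4 : 2 * (R : ℝ) * r * (Λ + 1) ≤ 4 * X ^ 3 * (Λ + 1) :=
      mul_le_mul_of_nonneg_right h3 (by positivity)
    have h5 : Y * X ^ 4 ≤ 4 * X ^ 3 * (Λ + 1) := by linarith
    have h6 : X ^ 3 * (Y * X) ≤ X ^ 3 * (4 * (Λ + 1)) := by
      calc X ^ 3 * (Y * X) = Y * X ^ 4 := by ring
        _ ≤ 4 * X ^ 3 * (Λ + 1) := h5
        _ = X ^ 3 * (4 * (Λ + 1)) := by ring
    have h7 : Y * X ≤ 4 * (Λ + 1) := le_of_mul_le_mul_left h6 (by positivity)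
    have h8 : Y * 100 ≤ Y * X := mul_le_mul_of_nonneg_left hX100 (by linarith)
    linarith
  have hΛpos : 1 ≤ Λ := by
    have h1 : (1 : ℝ) ≤ Λ := hY1.trans hΛ2
    exact_mod_cast h1
  have hsb : (s : ℝ) ≤ 2 ^ (τ * L ^ 2) := by
    rw [hpow] at hs
    refine hs.trans (le_of_eq ?_)
    congr 1; ring
  refine ⟨R, Λ, R, ?_, ?_, ?_, ?_, hRpos, hΛpos, ?_, ?_⟩
  · rw [← hk]; exact hkge
  · rw [← hk]
    have h1 : (k : ℝ) ≤ (R : ℝ) + 1 := by
      have : X ≤ X ^ 2 := le_self_pow₀ (by linarith) (by norm_num)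
      linarith
    exact_mod_cast h1
  · rw [← hk, ← hB, ← hM]; exact hM1
  · rw [← hB]; exact hΛ1
  · rw [← hk]
    have hgoal : (3 : ℝ) * r * s * R ^ k < Λ ^ k := by
      obtain ⟨w, hw⟩ : ∃ w : ℝ, w = (δ - 5 * c) * L - 1 := ⟨_, rfl⟩
      have hw0 : 0 ≤ w := by
        rw [hw]
        have : 5 * c * L ≤ (δ - 5 * c) * L := by
          apply mul_le_mul_of_nonneg_right _ (by linarith)
          linarith
        have e : 5 * c * L = 5 * (c * L) := by ring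
        linarith
      have hYw : Y = 2 * X ^ 2 * 2 ^ w := by
        rw [hY, ← hX2, hw]
        have : (2 : ℝ) * 2 ^ (c * L) * 2 ^ ((δ - 5 * c) * L - 1) =
            2 ^ (1 : ℝ) * 2 ^ (c * L) * 2 ^ ((δ - 5 * c) * L - 1) := by rw [Real.rpow_one]
        rw [this, ← Real.rpow_add (by norm_num), ← Real.rpow_add (by norm_num)]
        congr 1; ring
      have h1 : (3 : ℝ) * r * s < (2 ^ w) ^ k := by
        have e1 : ((2 : ℝ) ^ w) ^ k = 2 ^ (w * k) := by
          rw [← Real.rpow_natCast, ← Real.rpow_mul (by norm_num)]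
        have h2 : (2 : ℝ) ^ (2 + c / 2 * L + τ * L ^ 2) ≤ 2 ^ (w * k) := by
          apply Real.rpow_le_rpow_of_exponent_le (by norm_num)
          have h3 : w * ((1 - δ) * L) ≤ w * k := mul_le_mul_of_nonneg_left hk1 hw0
          refine le_trans ?_ h3
          rw [hw]
          have h4 : τ + 5 * c ≤ (1 - δ) * (δ - 5 * c) := by
            have : δ * (1 - δ) = τ + 10 * c := by rw [hc]; ring
            have e : (1 - δ) * (δ - 5 * c) = δ * (1 - δ) - 5 * c + 5 * (c * δ) := by ring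
            have : 0 ≤ c * δ := mul_nonneg hc0.le hδ.le
            linarith
          have h5 : (τ + 5 * c) * L ^ 2 ≤ (1 - δ) * (δ - 5 * c) * L ^ 2 :=
            mul_le_mul_of_nonneg_right h4 (sq_nonneg L)
          have h6 : L ≤ c * L ^ 2 := by
            have : 1 * L ≤ c * L * L := mul_le_mul_of_nonneg_right hcL (by linarith)
            have e : c * L ^ 2 = c * L * L := by ring
            linarith
          have e1 : ((δ - 5 * c) * L - 1) * ((1 - δ) * L) =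
              (1 - δ) * (δ - 5 * c) * L ^ 2 - L + δ * L := by ring
          have e2 : (τ + 5 * c) * L ^ 2 = τ * L ^ 2 + 5 * (c * L ^ 2) := by ring
          have h7 : 0 ≤ δ * L := mul_nonneg hδ.le (by linarith)
          have h8 : c / 2 * L ≤ 1 * L := mul_le_mul_of_nonneg_right (by linarith) (by linarith)
          linarith
        have h3 : (3 : ℝ) * r * s < 4 * X * 2 ^ (τ * L ^ 2) := by
          have p1 : (0 : ℝ) < 2 ^ (τ * L ^ 2) := by positivity
          have p2 : (r : ℝ) * s ≤ X * 2 ^ (τ * L ^ 2) :=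
            mul_le_mul hrX hsb (by positivity) hX0.le
          have p3 : 0 < X * 2 ^ (τ * L ^ 2) := by positivity
          have e1 : (3 : ℝ) * r * s = 3 * (r * s) := by ring
          have e2 : 4 * X * 2 ^ (τ * L ^ 2) = 4 * (X * 2 ^ (τ * L ^ 2)) := by ring
          linarith
        have h4 : 4 * X * 2 ^ (τ * L ^ 2) = (2 : ℝ) ^ (2 + c / 2 * L + τ * L ^ 2) := by
          rw [Real.rpow_add (by norm_num), Real.rpow_add (by norm_num), ← hX]
          norm_num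
        rw [e1]
        linarith
      have hR0 : (0 : ℝ) < (2 * X ^ 2) ^ k := by positivity
      calc (3 : ℝ) * r * s * R ^ k ≤ 3 * r * s * (2 * X ^ 2) ^ k := by
            apply mul_le_mul_of_nonneg_left _ (by positivity)
            exact pow_le_pow_left₀ (by positivity) hR3 k
        _ < (2 ^ w) ^ k * (2 * X ^ 2) ^ k := mul_lt_mul_of_pos_right h1 hR0
        _ = Y ^ k := by rw [hYw, mul_pow (2 * X ^ 2)]; ring
        _ ≤ Λ ^ k := pow_le_pow_left₀ (by linarith) hΛ2 k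
    exact_mod_cast hgoal
  · rw [← hk, ← hM]
    have hXX' : 100 * X ≤ X ^ 2 := by
      have : 100 * X ≤ X * X := mul_le_mul_of_nonneg_right hX100 hX0.le
      have e : X ^ 2 = X * X := by ring
      linarith
    have hXX : 3 + L + L ^ 2 + X ≤ X ^ 2 := by linarith
    have hRpow : (2 : ℝ) ^ (X ^ 2) ≤ 2 ^ R := by
      have e : (2 : ℝ) ^ R = 2 ^ (R : ℝ) := (Real.rpow_natCast 2 R).symm
      rw [e]
      exact Real.rpow_le_rpow_of_exponent_le (by norm_num) hR1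
    have hP : (0 : ℝ) < 2 ^ (X ^ 2) := by positivity
    -- first term
    have t1 : 2 * (r : ℝ) * s / 2 ^ R ≤ 2 ^ (-X - 2) := by
      have h1 : 2 * (r : ℝ) * s ≤ 2 ^ (1 + c / 2 * L + τ * L ^ 2) := by
        rw [Real.rpow_add (by norm_num), Real.rpow_add (by norm_num), ← hX, Real.rpow_one]
        have p2 : (r : ℝ) * s ≤ X * 2 ^ (τ * L ^ 2) :=
          mul_le_mul hrX hsb (by positivity) hX0.le
        have e1 : (2 : ℝ) * r * s = 2 * (r * s) := by ring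
        have e2 : (2 : ℝ) * X * 2 ^ (τ * L ^ 2) = 2 * (X * 2 ^ (τ * L ^ 2)) := by ring
        linarith
      calc 2 * (r : ℝ) * s / 2 ^ R ≤ 2 ^ (1 + c / 2 * L + τ * L ^ 2) / 2 ^ (X ^ 2) :=
            div_le_div₀ (by positivity) h1 hP hRpow
        _ = 2 ^ (1 + c / 2 * L + τ * L ^ 2 - X ^ 2) := by rw [Real.rpow_sub (by norm_num)]
        _ ≤ 2 ^ (-X - 2) := by
            apply Real.rpow_le_rpow_of_exponent_le (by norm_num)
            have h2 : c / 2 * L ≤ 1 * L :=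
              mul_le_mul_of_nonneg_right (by linarith) (by linarith)
            have h3 : τ * L ^ 2 ≤ 1 * L ^ 2 :=
              mul_le_mul_of_nonneg_right (by linarith) hL2
            linarith
    have t2 : ((M : ℝ) * k) / 2 ^ R ≤ 2 ^ (-X - 2) := by
      have h1 : (M : ℝ) * k ≤ 2 ^ L := by
        rw [← hnL]
        have : M * k ≤ n := le_trans (Nat.le_mul_of_pos_right _ hBpos) hM1
        exact_mod_cast this
      calc (M : ℝ) * k / 2 ^ R ≤ 2 ^ L / 2 ^ (X ^ 2) :=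
            div_le_div₀ (by positivity) h1 hP hRpow
        _ = 2 ^ (L - X ^ 2) := by rw [Real.rpow_sub (by norm_num)]
        _ ≤ 2 ^ (-X - 2) := by
            apply Real.rpow_le_rpow_of_exponent_le (by norm_num)
            linarith
    have t3 : 4 ^ r * (2 : ℝ) ^ (-((M : ℝ) / 2 ^ k)) ≤ 2 ^ (-X - 2) := by
      have h1 : (4 : ℝ) ^ r ≤ 2 ^ (2 * X) := by
        have e : (4 : ℝ) ^ r = 2 ^ (2 * (r : ℝ)) := by
          rw [Real.rpow_mul (by norm_num), Real.rpow_natCast]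
          norm_num
        rw [e]
        exact Real.rpow_le_rpow_of_exponent_le (by norm_num) (by linarith)
      have h2k : (2 : ℝ) ^ k ≤ 2 * 2 ^ ((1 - δ) * L) := by
        rw [← Real.rpow_natCast]
        calc (2 : ℝ) ^ (k : ℝ) ≤ 2 ^ ((1 - δ) * L + 1) :=
              Real.rpow_le_rpow_of_exponent_le (by norm_num) hk2
          _ = _ := by rw [Real.rpow_add (by norm_num), Real.rpow_one]; ring
      have h2 : X ^ 2 * 2 ^ k ≤ M + 1 := by
        -- n = 2^((1-δ)L) * Y * X^8 ... ; (M+1) k B ≥ n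
        have e1 : (n : ℝ) = 2 ^ ((1 - δ) * L) * Y * X ^ 4 * X ^ 4 := by
          rw [hnL, hY, ← hX4, ← Real.rpow_add (by norm_num), ← Real.rpow_add (by norm_num),
            ← Real.rpow_add (by norm_num)]
          congr 1; ring
        have h3 : (n : ℝ) ≤ (M + 1) * (k * (Y * X ^ 4)) := by
          refine hM2.trans ?_
          apply mul_le_mul_of_nonneg_left _ (by positivity)
          exact mul_le_mul_of_nonneg_left hB1 (by positivity)
        rw [e1] at h3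
        have hYX : 0 < Y * X ^ 4 := by positivity
        have h4 : 2 ^ ((1 - δ) * L) * X ^ 4 ≤ (M + 1) * k := by
          have : (Y * X ^ 4) * (2 ^ ((1 - δ) * L) * X ^ 4) ≤ (Y * X ^ 4) * ((M + 1) * k) := by
            calc (Y * X ^ 4) * (2 ^ ((1 - δ) * L) * X ^ 4)
                = 2 ^ ((1 - δ) * L) * Y * X ^ 4 * X ^ 4 := by ring
              _ ≤ (M + 1) * (k * (Y * X ^ 4)) := h3
              _ = _ := by ring
          exact le_of_mul_le_mul_left this hYX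
        have h5 : (k : ℝ) ≤ X / 2 := by linarith
        have h6 : 2 ^ ((1 - δ) * L) * X ^ 4 ≤ (M + 1) * (X / 2) :=
          h4.trans (mul_le_mul_of_nonneg_left h5 (by positivity))
        have h7 : X * (2 * 2 ^ ((1 - δ) * L) * X ^ 3) ≤ X * (M + 1) := by
          have e1 : X * (2 * 2 ^ ((1 - δ) * L) * X ^ 3) = 2 * (2 ^ ((1 - δ) * L) * X ^ 4) := by ring
          have e2 : X * ((M : ℝ) + 1) = 2 * ((M + 1) * (X / 2)) := by ring
          linarith
        have h8 : 2 * 2 ^ ((1 - δ) * L) * X ^ 3 ≤ M + 1 := le_of_mul_le_mul_left h7 hX0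
        have h9 : X ^ 2 * 2 ^ k ≤ X ^ 2 * (2 * 2 ^ ((1 - δ) * L)) :=
          mul_le_mul_of_nonneg_left h2k (by positivity)
        have hq : (0 : ℝ) < 2 ^ ((1 - δ) * L) := by positivity
        have h10 : X ^ 2 * (2 * 2 ^ ((1 - δ) * L)) ≤ 2 * 2 ^ ((1 - δ) * L) * X ^ 3 := by
          have : X ^ 2 ≤ X ^ 3 := pow_le_pow_right₀ (by linarith) (by norm_num)
          calc X ^ 2 * (2 * 2 ^ ((1 - δ) * L)) = 2 * 2 ^ ((1 - δ) * L) * X ^ 2 := by ring
            _ ≤ 2 * 2 ^ ((1 - δ) * L) * X ^ 3 := mul_le_mul_of_nonneg_left this (by positivity)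
        linarith
      have h3 : X ^ 2 - 1 ≤ (M : ℝ) / 2 ^ k := by
        rw [le_div_iff₀ (by positivity)]
        have h4 : (1 : ℝ) ≤ 2 ^ k := one_le_pow₀ (by norm_num)
        have e : (X ^ 2 - 1) * 2 ^ k = X ^ 2 * 2 ^ k - 2 ^ k := by ring
        linarith
      calc 4 ^ r * (2 : ℝ) ^ (-((M : ℝ) / 2 ^ k)) ≤ 2 ^ (2 * X) * 2 ^ (-(X ^ 2 - 1)) := by
            apply mul_le_mul h1 _ (by positivity) (by positivity)
            apply Real.rpow_le_rpow_of_exponent_le (by norm_num)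
            linarith
        _ = 2 ^ (2 * X + -(X ^ 2 - 1)) := by rw [Real.rpow_add (by norm_num)]
        _ ≤ 2 ^ (-X - 2) := by
            apply Real.rpow_le_rpow_of_exponent_le (by norm_num)
            linarith
    have e : (2 : ℝ) ^ (-X) = 4 * 2 ^ (-X - 2) := by
      have e1 : (2 : ℝ) ^ (-X - 2) = 2 ^ (-X) / 4 := by
        rw [Real.rpow_sub (by norm_num)]
        norm_num
      rw [e1]
      ring
    have hp : (0 : ℝ) < 2 ^ (-X - 2) := by positivity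
    rw [e]
    linarith

end Pool.Agent.helper5.CB
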