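import Pool.Agent.helper5.CB.Defs

set_option autoImplicit false
open Finset

namespace Pool.Agent.helper5.CB

variable {V : Type*} [AddCommGroup V]

theorem degCalc_add_self (a : ZMod 2) : a + a = 0 := CharTwo.add_self_eq_zero a

theorem degCalc_succ : ∀ {d : ℕ} {g : V → ZMod 2}, DegLT d g → DegLT (d + 1) g
  | 0, g, hg => by
    intro h y
    have h1 := hg (y + h)
    have h2 := hg y
    change g (y + h) + g y = 0
    rw [h1, h2, add_zero]
  | (d + 1), g, hg => fun h => degCalc_succ (hg h)

theorem degCalc_zero : ∀ d : ℕ, DegLT d (fun _ : V => (0 : ZMod 2))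
  | 0 => fun _ => rfl
  | (d + 1) => fun _ => by
    have h1 := degCalc_zero d
    have h2 : (fun y : V => (0 : ZMod 2) + 0) = fun _ => 0 := by
      funext y
      rw [add_zero]
    change DegLT d (fun _ : V => (0 : ZMod 2) + 0)
    rw [h2]
    exact h1

theorem DegLT.mono {d e : ℕ} {g : V → ZMod 2} (hg : DegLT d g) (h : d ≤ e) : DegLT e g := by
  induction e, h using Nat.le_induction with
  | base => exact hg
  | succ n _ ih => exact degCalc_succ ih

theorem DegLT.add {d : ℕ} {g g' : V → ZMod 2} (hg : DegLT d g) (hg' : DegLT d g') :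
    DegLT d (fun y => g y + g' y) := by
  induction d generalizing g g' with
  | zero =>
    intro y
    have h1 := hg y
    have h2 := hg' y
    change g y + g' y = 0
    rw [h1, h2, add_zero]
  | succ d ih =>
    intro h
    have h3 := ih (hg h) (hg' h)
    have h4 : (fun y => g (y + h) + g' (y + h) + (g y + g' y))
        = fun y => g (y + h) + g y + (g' (y + h) + g' y) := by
      funext y
      ring
    change DegLT d (fun y => g (y + h) + g' (y + h) + (g y + g' y))
    rw [h4]
    exact h3

theorem DegLT.sum {ι : Type*} {d : ℕ} (s : Finset ι) {g : ι → V → ZMod 2}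
    (hg : ∀ i ∈ s, DegLT d (g i)) : DegLT d (fun y => ∑ i ∈ s, g i y) := by
  classical
  induction s using Finset.induction_on with
  | empty =>
    simp only [Finset.sum_empty]
    exact degCalc_zero d
  | insert a s ha ih =>
    simp only [Finset.sum_insert ha]
    exact (hg a (Finset.mem_insert_self a s)).add
      (ih fun i hi => hg i (Finset.mem_insert_of_mem hi))

theorem degCalc_const_one (z : ZMod 2) : DegLT 1 (fun _ : V => z) := fun _ _ => degCalc_add_self z

theorem degLT_const {d : ℕ} (hd : 1 ≤ d) (z : ZMod 2) : DegLT d (fun _ : V => z) :=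
  (degCalc_const_one z).mono hd

/-- `DegLT 2` means affine: a function with `g (y + h) + g y` independent of `y`. -/
theorem degLT_affine {g : V → ZMod 2} (L : V → ZMod 2) (hg : ∀ y h, g (y + h) + g y = L h) :
    DegLT 2 g := by
  intro h
  have h1 : (fun y => g (y + h) + g y) = fun _ => L h := by
    funext y
    exact hg y h
  rw [h1]
  exact degCalc_const_one _

theorem degCalc_shift {d : ℕ} {g : V → ZMod 2} (hg : DegLT d g) (k : V) :
    DegLT d (fun y => g (y + k)) := by
  induction d generalizing g with
  | zero => exact fun y => hg (y + k)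
  | succ d ih =>
    intro h
    have h1 := ih (hg h)
    have h2 : (fun y => g (y + h + k) + g (y + k)) = fun y => g (y + k + h) + g (y + k) := by
      funext y
      rw [add_right_comm]
    change DegLT d (fun y => g (y + h + k) + g (y + k))
    rw [h2]
    exact h1

theorem degCalc_const_mul {d : ℕ} {g : V → ZMod 2} (hg : DegLT d g) (c : ZMod 2) :
    DegLT d (fun y => c * g y) := by
  rcases zmod2_cases c with rfl | rfl
  · simp only [zero_mul]
    exact degCalc_zero d
  · simp only [one_mul]
    exact hg

/-- the derivative of an affine function is constant -/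
theorem degCalc_affine {ℓ : V → ZMod 2} (hℓ : DegLT 2 ℓ) (y h : V) :
    ℓ (y + h) = ℓ y + (ℓ h + ℓ 0) := by
  have h1 : ℓ (0 + y + h) + ℓ (0 + y) + (ℓ (0 + h) + ℓ 0) = 0 := hℓ h y 0
  rw [zero_add, zero_add] at h1
  have h2 : ℓ (y + h) + ℓ y + (ℓ h + ℓ 0) + (ℓ y + (ℓ h + ℓ 0)) = ℓ y + (ℓ h + ℓ 0) := by
    rw [h1, zero_add]
  rw [← h2]
  have h3 := degCalc_add_self (ℓ y + (ℓ h + ℓ 0))
  calc ℓ (y + h) = ℓ (y + h) + 0 := (add_zero _).symm
    _ = ℓ (y + h) + (ℓ y + (ℓ h + ℓ 0) + (ℓ y + (ℓ h + ℓ 0))) := by rw [h3]
    _ = _ := by ring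

/-- Multiplication by an affine function raises the degree by one. -/
theorem DegLT.mul {d : ℕ} {ℓ g : V → ZMod 2} (hℓ : DegLT 2 ℓ) (hg : DegLT d g) :
    DegLT (d + 1) (fun y => ℓ y * g y) := by
  induction d generalizing g with
  | zero =>
    have h1 : (fun y => ℓ y * g y) = fun _ => 0 := by
      funext y
      rw [hg y, mul_zero]
    rw [h1]
    exact degCalc_zero 1
  | succ d ih =>
    intro h
    have h1 := (ih (hg h)).add (degCalc_const_mul (degCalc_shift hg h) (ℓ h + ℓ 0))
    have h2 : (fun y => ℓ (y + h) * g (y + h) + ℓ y * g y)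
        = fun y => ℓ y * (g (y + h) + g y) + (ℓ h + ℓ 0) * g (y + h) := by
      funext y
      rw [degCalc_affine hℓ y h]
      ring
    change DegLT (d + 1) (fun y => ℓ (y + h) * g (y + h) + ℓ y * g y)
    rw [h2]
    exact h1

/-- A function of the affine functions `A · c`, `c ∈ T`, has degree at most `|T|`. (Induction on `T`: with
`c ∈ T` write `F s = s c * (F (s with s c = 1) + F (s with s c = 0)) + F (s with s c = 0)`.) -/
theorem degLT_of_depends {ι : Type*} [DecidableEq ι] (T : Finset ι) (F : (ι → ZMod 2) → ZMod 2)
    (hF : ∀ s s' : ι → ZMod 2, (∀ c ∈ T, s c = s' c) → F s = F s')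
    (A : V → ι → ZMod 2) (hA : ∀ c, DegLT 2 (fun y => A y c)) :
    DegLT (T.card + 1) (fun y => F (A y)) := by
  induction T using Finset.induction_on generalizing F with
  | empty =>
    have h1 : (fun y => F (A y)) = fun _ => F (fun _ => 0) := by
      funext y
      exact hF _ _ (by simp)
    rw [h1]
    exact degLT_const (by simp) _
  | insert c T hc ih =>
    have hup : ∀ (z : ZMod 2) (s s' : ι → ZMod 2), (∀ e ∈ T, s e = s' e) →
        F (Function.update s c z) = F (Function.update s' c z) := by
      intro z s s' hs
      apply hF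
      intro e he
      by_cases hec : e = c
      · rw [hec, Function.update_self, Function.update_self]
      · rw [Function.update_of_ne hec, Function.update_of_ne hec]
        exact hs e ((Finset.mem_insert.1 he).resolve_left hec)
    have h0 := ih (fun s => F (Function.update s c 0)) (hup 0)
    have h1 := ih (fun s => F (Function.update s c 1) + F (Function.update s c 0))
      (fun s s' hs => by
        rw [hup 1 s s' hs, hup 0 s s' hs])
    have h2 := ((hA c).mul h1).add (degCalc_succ h0)
    have h3 : (fun y => F (A y)) = fun y =>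
        A y c * (F (Function.update (A y) c 1) + F (Function.update (A y) c 0))
          + F (Function.update (A y) c 0) := by
      funext y
      have hs := Function.update_eq_self c (A y)
      rcases zmod2_cases (A y c) with h | h
      · rw [h] at hs
        rw [h, zero_mul, zero_add, hs]
      · rw [h] at hs
        rw [h, one_mul, hs, add_assoc, degCalc_add_self, add_zero]
    rw [h3, Finset.card_insert_of_notMem hc]
    exact h2

/-- Functions of degree `< k` do not change `U k`. -/
theorem U_add_degLT [Fintype V] (k : ℕ) (F g : V → ZMod 2) (hg : DegLT k g) :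
    U k (fun y => F y + g y) = U k F := by
  induction k generalizing F g with
  | zero =>
    have h1 : (fun y => F y + g y) = F := by
      funext y
      rw [hg y, add_zero]
    rw [h1]
  | succ k ih =>
    unfold U
    congr 1
    refine Finset.sum_congr rfl fun h _ => ?_
    have h2 : (fun y => F (y + h) + g (y + h) + (F y + g y))
        = fun y => (F (y + h) + F y) + (g (y + h) + g y) := by
      funext y
      ring
    rw [h2]
    exact ih _ _ (hg h)

end Pool.Agent.helper5.CB
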