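import Pool.Agent.helper5.CB.Mono
import Pool.Agent.helper5.CB.DegCalc

set_option autoImplicit false
open Finset

namespace Pool.Agent.helper5.CB

/-- The reindexing homomorphism. -/
def GipBound_phi (M k : ℕ) : (Fin (M * k) → ZMod 2) →+ (Fin M → Fin k → ZMod 2) where
  toFun y j i := y (finProdFinEquiv (j, i))
  map_zero' := rfl
  map_add' _ _ := rfl

theorem GipBound_phi_surj (M k : ℕ) : Function.Surjective (GipBound_phi M k) := by
  intro z
  refine ⟨fun m => z (finProdFinEquiv.symm m).1 (finProdFinEquiv.symm m).2, ?_⟩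
  funext j i
  show z (finProdFinEquiv.symm (finProdFinEquiv (j, i))).1
    (finProdFinEquiv.symm (finProdFinEquiv (j, i))).2 = z j i
  rw [Equiv.symm_apply_apply]

theorem GipBound_U_gip (M k : ℕ) :
    U k (fun y : Fin (M * k) → ZMod 2 => gip (M := M) (k := k) y)
      = (U k (fun w : Fin k → ZMod 2 => ∏ i, w i)) ^ M := by
  have h1 := U_comp_affine (V := Fin (M * k) → ZMod 2) (V' := Fin M → Fin k → ZMod 2) k
    (fun z => ∑ j, ∏ i, z j i) (GipBound_phi M k) (GipBound_phi_surj M k) 0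
  have h2 := U_pi (ι := Fin M) (W := Fin k → ZMod 2) k (fun _ w => ∏ i, w i)
  have h3 : (fun y : Fin (M * k) → ZMod 2 => gip (M := M) (k := k) y)
      = fun y => ∑ j, ∏ i, (GipBound_phi M k y + 0) j i := by
    funext y
    rw [add_zero]
    rfl
  rw [h3]
  refine h1.trans ?_
  refine h2.trans ?_
  rw [prod_const, card_univ, Fintype.card_fin]

/-- The main correlation bound for the generalized inner product. From `pow_le_U`, `U_add_degLT`,
`U_comp_affine` (with the equivalence `Fin (M*k) → ZMod 2 ≃ Fin M → Fin k → ZMod 2`), `U_pi`, `U_mono_bound`: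
`(U 0 (gip + g))^(2^k) ≤ U k gip = (U k m_k)^M ≤ 2^-M`. -/
theorem gip_bound {M k : ℕ} (hk : 1 ≤ k) (g : (Fin (M * k) → ZMod 2) → ZMod 2) (hg : DegLT k g) :
    |∑ y, sg (gip (M := M) (k := k) y + g y)| ≤ 2 ^ (M * k) * (2 : ℝ) ^ (-((M : ℝ) / 2 ^ k)) := by
  have hcard : (Fintype.card (Fin (M * k) → ZMod 2) : ℝ) = 2 ^ (M * k) := by
    simp [ZMod.card]
  have hpos : (0 : ℝ) < 2 ^ (M * k) := by positivity
  have h1 := pow_le_U k (fun y : Fin (M * k) → ZMod 2 => gip (M := M) (k := k) y + g y)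
  rw [U_add_degLT k (fun y : Fin (M * k) → ZMod 2 => gip (M := M) (k := k) y) g hg,
    GipBound_U_gip] at h1
  have hb := U_mono_bound hk
  have h2 : (U k (fun w : Fin k → ZMod 2 => ∏ i, w i)) ^ M ≤ (1 / 2 : ℝ) ^ M :=
    pow_le_pow_left₀ hb.1 hb.2 M
  have h3 := h1.trans h2
  set u : ℝ := U 0 (fun y : Fin (M * k) → ZMod 2 => gip (M := M) (k := k) y + g y) with hu
  have hsum : (∑ y, sg (gip (M := M) (k := k) y + g y)) = 2 ^ (M * k) * u := by
    rw [hu]
    simp only [U]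
    rw [hcard]
    field_simp
  have heven : Even (2 ^ k) := by
    refine (Nat.even_pow' (by omega)).2 (by decide)
  have h4 : |u| ^ (2 ^ k) ≤ (1 / 2 : ℝ) ^ M := by
    rw [heven.pow_abs]
    exact h3
  have h5 : (1 / 2 : ℝ) ^ M = ((2 : ℝ) ^ (-((M : ℝ) / 2 ^ k))) ^ (2 ^ k) := by
    rw [← Real.rpow_natCast, ← Real.rpow_natCast, ← Real.rpow_mul (by norm_num)]
    have e1 : -((M : ℝ) / 2 ^ k) * ((2 ^ k : ℕ) : ℝ) = -(M : ℝ) := by
      push_cast
      field_simp
    rw [e1, Real.rpow_neg (by norm_num), one_div, Real.inv_rpow (by norm_num)]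
  rw [h5] at h4
  have h6 : |u| ≤ (2 : ℝ) ^ (-((M : ℝ) / 2 ^ k)) :=
    le_of_pow_le_pow_left₀ (by positivity) (by positivity) h4
  rw [hsum, abs_mul, abs_of_pos hpos]
  exact mul_le_mul_of_nonneg_left h6 hpos.le

end Pool.Agent.helper5.CB
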