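import Pool.Agent.helper5.CB.Defs

set_option autoImplicit false
open Finset

namespace Pool.Agent.helper5.CB

/-- the sum over one cell -/
theorem cell_sum {n B c : ℕ} (hB : 0 < B) (hc : (c + 1) * B ≤ n) (x : Fin n → ZMod 2) :
    ∑ b ∈ range B, coord x (c * B + b) = ∑ i ∈ univ.filter (fun i : Fin n => i.val / B = c), x i := by
  have hlt : ∀ b ∈ range B, c * B + b < n := by
    intro b hb
    rw [mem_range] at hb
    rw [add_mul, one_mul] at hc
    omega
  refine sum_bij (fun b hb => ⟨c * B + b, hlt b hb⟩) ?_ ?_ ?_ ?_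
  · intro b hb
    rw [mem_filter]
    refine ⟨mem_univ _, ?_⟩
    rw [mem_range] at hb
    change (c * B + b) / B = c
    rw [mul_comm, Nat.mul_add_div hB, Nat.div_eq_of_lt hb, add_zero]
  · intro b hb b' hb' h
    have h1 : c * B + b = c * B + b' := congrArg Fin.val h
    omega
  · intro i hi
    rw [mem_filter] at hi
    refine ⟨i.val % B, mem_range.2 (Nat.mod_lt _ hB), ?_⟩
    apply Fin.ext
    change c * B + i.val % B = i.val
    rw [← hi.2, mul_comm]
    exact Nat.div_add_mod _ _
  · intro b hb
    rw [coord, dif_pos (hlt b hb)]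

/-- The explicit function is `gip` of the cell sums. -/
theorem hard_eq {n k M B : ℕ} (hk : 2 ≤ k) (hn : M * k * B ≤ n) (x : Fin n → ZMod 2) :
    hard k M B x = gip (M := M) (k := k) (ysum B x) := by
  unfold hard gip
  rw [sum_range]
  refine sum_congr rfl fun j _ => ?_
  rw [prod_range]
  rcases Nat.eq_zero_or_pos B with hB | hB
  · subst hB
    have h1 : (⟨0, by omega⟩ : Fin k) ∈ (univ : Finset (Fin k)) := mem_univ _
    rw [prod_eq_zero h1 (by rw [range_zero, sum_empty])]
    have h2 : (⟨1, by omega⟩ : Fin k) ∈ (univ : Finset (Fin k)) := mem_univ _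
    symm
    refine prod_eq_zero h2 ?_
    unfold ysum
    refine sum_eq_zero fun i hi => ?_
    rw [mem_filter, Nat.div_zero, finProdFinEquiv_apply_val] at hi
    have h3 := hi.2
    change 0 = 1 + k * j.val at h3
    omega
  · refine prod_congr rfl fun i _ => ?_
    unfold ysum
    rw [finProdFinEquiv_apply_val]
    change ∑ b ∈ range B, coord x ((j.val * k + i.val) * B + b) =
      ∑ i' ∈ univ.filter (fun i' : Fin n => i'.val / B = i.val + k * j.val), x i'
    have h1 : i.val + k * j.val = j.val * k + i.val := by ring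
    rw [h1]
    refine cell_sum hB (le_trans (Nat.mul_le_mul_right _ ?_) hn) x
    have h2 := j.isLt
    have h3 := i.isLt
    calc j.val * k + i.val + 1 ≤ j.val * k + k := by omega
      _ = (j.val + 1) * k := by ring
      _ ≤ M * k := Nat.mul_le_mul_right _ h2

end Pool.Agent.helper5.CB
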