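import Pool.Agent.helper5.CB.Defs

set_option autoImplicit false
open Finset

namespace Pool.Agent.helper5.CB

section
variable {n N r B R Λ : ℕ} {π : Fin n → Fin r} {fav : Fin N → Fin r}

/-- the pair number `μ` of the group `(c, ρ)` meets `S` -/
def LamH (W : Wiring B R Λ π fav) (S : Finset (Fin n)) (t : Fin N × Fin R) (μ : Fin Λ) : Prop :=
  ¬ Root fav t.1 ∧ (W.a t.1 t.2 μ ∈ S ∨ W.b t.1 t.2 μ ∈ S)

instance (W : Wiring B R Λ π fav) (S : Finset (Fin n)) (t : Fin N × Fin R) (μ : Fin Λ) :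
    Decidable (LamH W S t μ) := by unfold LamH; infer_instance

/-- the element of `S` in the pair -/
def LamE (W : Wiring B R Λ π fav) (S : Finset (Fin n)) (t : Fin N × Fin R) (μ : Fin Λ) : Fin n :=
  if W.a t.1 t.2 μ ∈ S then W.a t.1 t.2 μ else W.b t.1 t.2 μ

theorem LamE_mem {W : Wiring B R Λ π fav} {S : Finset (Fin n)} {t : Fin N × Fin R} {μ : Fin Λ}
    (h : LamH W S t μ) : LamE W S t μ ∈ S := by
  unfold LamE
  split_ifs with h1
  · exact h1
  · exact h.2.resolve_left h1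

theorem LamE_inj {W : Wiring B R Λ π fav} {S : Finset (Fin n)} {t t' : Fin N × Fin R} {μ μ' : Fin Λ}
    (h : LamH W S t μ) (h' : LamH W S t' μ') (he : LamE W S t μ = LamE W S t' μ') :
    t = t' ∧ μ = μ' := by
  unfold LamE at he
  obtain ⟨c, ρ⟩ := t
  obtain ⟨c', ρ'⟩ := t'
  split_ifs at he with h1 h2 h2
  · obtain ⟨e1, e2, e3⟩ := W.a_inj _ _ _ _ _ _ h.1 h'.1 he
    simp only at e1 e2
    exact ⟨by rw [e1, e2], e3⟩
  · exact absurd he (W.ab_ne _ _ _ _ _ _ h.1 h'.1)
  · exact absurd he.symm (W.ab_ne _ _ _ _ _ _ h'.1 h.1)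
  · obtain ⟨e1, e2, e3⟩ := W.b_inj _ _ _ _ _ _ h.1 h'.1 he
    simp only at e1 e2
    exact ⟨by rw [e1, e2], e3⟩

/-- total number of pairs that meet `S` -/
theorem Lam_sum_le (W : Wiring B R Λ π fav) (S : Finset (Fin n)) :
    ∑ t : Fin N × Fin R, (univ.filter fun μ => LamH W S t μ).card ≤ S.card := by
  have h1 : ∑ t : Fin N × Fin R, (univ.filter fun μ => LamH W S t μ).card =
      (univ.filter fun u : (Fin N × Fin R) × Fin Λ => LamH W S u.1 u.2).card := by
    calc ∑ t : Fin N × Fin R, (univ.filter fun μ => LamH W S t μ).card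
        = ∑ t : Fin N × Fin R, ∑ μ : Fin Λ, (if LamH W S t μ then 1 else 0) :=
          sum_congr rfl (fun t _ => card_filter _ _)
      _ = ∑ u : (Fin N × Fin R) × Fin Λ, (if LamH W S u.1 u.2 then 1 else 0) :=
          (Fintype.sum_prod_type (fun u : (Fin N × Fin R) × Fin Λ =>
            (if LamH W S u.1 u.2 then 1 else 0 : ℕ))).symm
      _ = _ := (card_filter _ _).symm
  rw [h1]
  refine card_le_card_of_injOn (fun u => LamE W S u.1 u.2) ?_ ?_
  · intro u hu
    have hu' : u ∈ univ.filter fun u : (Fin N × Fin R) × Fin Λ => LamH W S u.1 u.2 := hu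
    rw [mem_filter] at hu'
    exact LamE_mem hu'.2
  · intro u hu u' hu' he
    have h2 : u ∈ univ.filter fun u : (Fin N × Fin R) × Fin Λ => LamH W S u.1 u.2 := hu
    have h3 : u' ∈ univ.filter fun u : (Fin N × Fin R) × Fin Λ => LamH W S u.1 u.2 := hu'
    rw [mem_filter] at h2 h3
    obtain ⟨e1, e2⟩ := LamE_inj h2.2 h3.2 he
    exact Prod.ext e1 e2

/-- number of hits -/
theorem Lam_hits_le (W : Wiring B R Λ π fav) (S : Finset (Fin n)) (g : Fin N × Fin R → Fin Λ) :
    (univ.filter fun t => LamH W S t (g t)).card ≤ S.card := by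
  refine card_le_card_of_injOn (fun t => LamE W S t (g t)) ?_ ?_
  · intro t ht
    have h2 : t ∈ univ.filter fun t => LamH W S t (g t) := ht
    rw [mem_filter] at h2
    exact LamE_mem h2.2
  · intro t ht t' ht' he
    have h2 : t ∈ univ.filter fun t => LamH W S t (g t) := ht
    have h3 : t' ∈ univ.filter fun t => LamH W S t (g t) := ht'
    rw [mem_filter] at h2 h3
    exact (LamE_inj h2.2 h3.2 he).1

/-- one set: few bad choices -/
theorem Lam_bad (W : Wiring B R Λ π fav) {k D : ℕ} (S : Finset (Fin n)) (hS : S.card ≤ D)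
    (hD : 1 ≤ D) :
    ((univ.filter fun g : Fin N × Fin R → Fin Λ =>
      k ≤ (univ.filter fun t => LamH W S t (g t)).card).card : ℝ) * (Λ : ℝ) ^ k ≤
      3 * (D : ℝ) ^ k * (Λ : ℝ) ^ (N * R) := by
  have hDpos : (0 : ℝ) < D := by exact_mod_cast hD
  set q : ℝ := (Λ : ℝ) / D with hq
  have hq0 : 0 ≤ q := by positivity
  set Bad := univ.filter fun g : Fin N × Fin R → Fin Λ =>
      k ≤ (univ.filter fun t => LamH W S t (g t)).card with hBad
  have hupper : ∑ g : Fin N × Fin R → Fin Λ, ∏ t, (if LamH W S t (g t) then 1 + q else 1) ≤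
      3 * (Λ : ℝ) ^ (N * R) := by
    have h1 : ∑ g : Fin N × Fin R → Fin Λ, ∏ t, (if LamH W S t (g t) then 1 + q else 1) =
        ∏ t : Fin N × Fin R, ∑ μ : Fin Λ, (if LamH W S t μ then 1 + q else 1) := by
      rw [prod_univ_sum, Fintype.piFinset_univ]
    have h2 : ∀ t : Fin N × Fin R, ∑ μ : Fin Λ, (if LamH W S t μ then 1 + q else 1) =
        (Λ : ℝ) * (1 + ((univ.filter fun μ => LamH W S t μ).card : ℝ) / D) := by
      intro t
      have h3 : ∀ μ : Fin Λ, (if LamH W S t μ then 1 + q else (1 : ℝ)) =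
          1 + (if LamH W S t μ then q else 0) := by
        intro μ; split_ifs <;> ring
      rw [sum_congr rfl (fun μ _ => h3 μ), sum_add_distrib, ← sum_filter, sum_const, sum_const,
        card_univ, Fintype.card_fin, nsmul_eq_mul, nsmul_eq_mul, hq]
      field_simp
    rw [h1, prod_congr rfl (fun t _ => h2 t), prod_mul_distrib, prod_const, card_univ,
      Fintype.card_prod, Fintype.card_fin, Fintype.card_fin]
    have h4 : ∏ t : Fin N × Fin R, (1 + ((univ.filter fun μ => LamH W S t μ).card : ℝ) / D) ≤ 3 := by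
      calc ∏ t : Fin N × Fin R, (1 + ((univ.filter fun μ => LamH W S t μ).card : ℝ) / D)
          ≤ ∏ t : Fin N × Fin R, Real.exp (((univ.filter fun μ => LamH W S t μ).card : ℝ) / D) := by
            refine prod_le_prod (fun t _ => by positivity) (fun t _ => ?_)
            have := Real.add_one_le_exp (((univ.filter fun μ => LamH W S t μ).card : ℝ) / D)
            linarith
        _ = Real.exp (∑ t : Fin N × Fin R, ((univ.filter fun μ => LamH W S t μ).card : ℝ) / D) :=
            (Real.exp_sum _ _).symm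
        _ ≤ Real.exp 1 := by
            apply Real.exp_le_exp.mpr
            rw [← sum_div, div_le_one hDpos]
            have h5 := (Lam_sum_le W S).trans hS
            exact_mod_cast h5
        _ ≤ 3 := by
            have := Real.exp_one_lt_d9
            linarith
    calc (Λ : ℝ) ^ (N * R) * ∏ t : Fin N × Fin R,
          (1 + ((univ.filter fun μ => LamH W S t μ).card : ℝ) / D)
        ≤ (Λ : ℝ) ^ (N * R) * 3 := by gcongr
      _ = 3 * (Λ : ℝ) ^ (N * R) := by ring
  have hlower : (Bad.card : ℝ) * q ^ k ≤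
      ∑ g : Fin N × Fin R → Fin Λ, ∏ t, (if LamH W S t (g t) then 1 + q else 1) := by
    have h1 : (Bad.card : ℝ) * q ^ k = ∑ g ∈ Bad, q ^ k := by
      rw [sum_const, nsmul_eq_mul]
    rw [h1]
    calc ∑ g ∈ Bad, q ^ k ≤ ∑ g ∈ Bad, ∏ t, (if LamH W S t (g t) then 1 + q else 1) := by
          refine sum_le_sum (fun g hg => ?_)
          rw [hBad, mem_filter] at hg
          rw [prod_ite, prod_const, prod_const_one, mul_one]
          calc q ^ k ≤ (1 + q) ^ k := by gcongr; linarith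
            _ ≤ (1 + q) ^ (univ.filter fun t => LamH W S t (g t)).card :=
              pow_le_pow_right₀ (by linarith) hg.2
      _ ≤ ∑ g : Fin N × Fin R → Fin Λ, ∏ t, (if LamH W S t (g t) then 1 + q else 1) := by
          refine sum_le_sum_of_subset_of_nonneg (subset_univ _) (fun g _ _ => ?_)
          refine prod_nonneg (fun t _ => ?_)
          split_ifs <;> linarith
  have h3 := hlower.trans hupper
  rw [hq, div_pow] at h3
  have hDk : (0 : ℝ) < (D : ℝ) ^ k := by positivity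
  have h4 : (Bad.card : ℝ) * (Λ : ℝ) ^ k = ((Bad.card : ℝ) * ((Λ : ℝ) ^ k / (D : ℝ) ^ k)) * (D : ℝ) ^ k := by
    field_simp
  rw [h4]
  calc ((Bad.card : ℝ) * ((Λ : ℝ) ^ k / (D : ℝ) ^ k)) * (D : ℝ) ^ k
      ≤ (3 * (Λ : ℝ) ^ (N * R)) * (D : ℝ) ^ k := by gcongr
    _ = 3 * (D : ℝ) ^ k * (Λ : ℝ) ^ (N * R) := by ring

end

/-- Existence of a choice `lam` for which every monomial meets fewer than `k` chosen pairs.
Proof by counting: for one set `S` with `k ≤ |S| ≤ D` the number of bad `lam` is at most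
`3 * (D/Λ)^k * Λ^(N*R)`: with `m (c,ρ)` = number of `μ` such that the pair `(c,ρ,μ)` meets `S`, `∑ m ≤ |S| ≤ D` and
`∑_lam ∏_(c,ρ) (1 + (Λ/D) [pair (c,ρ,lam c ρ) meets S]) = ∏ (Λ + Λ m/D) ≤ Λ^(N R) exp 1`; for bad `lam` the product is
at least `(Λ/D)^k`. (Or simply count the `k`-subsets of `S`.) For `|S| < k` nothing is to be proved: distinct pairs
are disjoint. -/
theorem exists_lam {n N r B R Λ : ℕ} {π : Fin n → Fin r} {fav : Fin N → Fin r} (W : Wiring B R Λ π fav)
    (hΛ : 1 ≤ Λ) {k D s : ℕ} (hk : 1 ≤ k) (𝒬 : Fin r → Finset (Finset (Fin n)))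
    (hD : ∀ a, ∀ S ∈ 𝒬 a, S.card ≤ D)
    (hs : ∀ a, ((𝒬 a).filter (fun S => k ≤ S.card)).card ≤ s)
    (hcount : 3 * r * s * D ^ k < Λ ^ k) :
    ∃ lam : Fin N → Fin R → Fin Λ, ∀ a, ∀ S ∈ 𝒬 a,
      (univ.filter (fun cρ : Fin N × Fin R => ¬ Root fav cρ.1 ∧
        (W.a cρ.1 cρ.2 (lam cρ.1 cρ.2) ∈ S ∨ W.b cρ.1 cρ.2 (lam cρ.1 cρ.2) ∈ S))).card < k := by
  have hΛpos : (0 : ℝ) < Λ := by exact_mod_cast hΛ
  by_contra hcon
  push Not at hcon
  -- every choice is bad
  have hall : (univ : Finset (Fin N × Fin R → Fin Λ)) ⊆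
      univ.biUnion (fun a : Fin r => ((𝒬 a).filter (fun S => k ≤ S.card)).biUnion (fun S =>
        univ.filter fun g : Fin N × Fin R → Fin Λ =>
          k ≤ (univ.filter fun t => LamH W S t (g t)).card)) := by
    intro g _
    obtain ⟨a, S, hS, hbad⟩ := hcon (fun c ρ => g (c, ρ))
    have hbad' : k ≤ (univ.filter fun t => LamH W S t (g t)).card := hbad
    rw [mem_biUnion]
    refine ⟨a, mem_univ _, ?_⟩
    rw [mem_biUnion]
    refine ⟨S, ?_, ?_⟩
    · rw [mem_filter]
      exact ⟨hS, hbad'.trans (Lam_hits_le W S g)⟩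
    · rw [mem_filter]
      exact ⟨mem_univ _, hbad'⟩
  have hcard := card_le_card hall
  rw [card_univ, Fintype.card_fun, Fintype.card_prod, Fintype.card_fin, Fintype.card_fin,
    Fintype.card_fin] at hcard
  have h1 : Λ ^ (N * R) ≤ ∑ a : Fin r, ∑ S ∈ (𝒬 a).filter (fun S => k ≤ S.card),
      (univ.filter fun g : Fin N × Fin R → Fin Λ =>
          k ≤ (univ.filter fun t => LamH W S t (g t)).card).card := by
    refine hcard.trans (card_biUnion_le.trans (sum_le_sum (fun a _ => card_biUnion_le)))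
  have h2 : ((Λ : ℝ) ^ (N * R)) ≤ ∑ a : Fin r, ∑ S ∈ (𝒬 a).filter (fun S => k ≤ S.card),
      ((univ.filter fun g : Fin N × Fin R → Fin Λ =>
          k ≤ (univ.filter fun t => LamH W S t (g t)).card).card : ℝ) := by
    exact_mod_cast h1
  have h3 : ((Λ : ℝ) ^ (N * R)) * (Λ : ℝ) ^ k ≤
      r * (s * (3 * (D : ℝ) ^ k * (Λ : ℝ) ^ (N * R))) := by
    calc ((Λ : ℝ) ^ (N * R)) * (Λ : ℝ) ^ k ≤
        (∑ a : Fin r, ∑ S ∈ (𝒬 a).filter (fun S => k ≤ S.card),
      ((univ.filter fun g : Fin N × Fin R → Fin Λ =>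
          k ≤ (univ.filter fun t => LamH W S t (g t)).card).card : ℝ)) * (Λ : ℝ) ^ k := by gcongr
      _ = ∑ a : Fin r, ∑ S ∈ (𝒬 a).filter (fun S => k ≤ S.card),
      ((univ.filter fun g : Fin N × Fin R → Fin Λ =>
          k ≤ (univ.filter fun t => LamH W S t (g t)).card).card : ℝ) * (Λ : ℝ) ^ k := by
        rw [sum_mul]
        exact sum_congr rfl (fun a _ => by rw [sum_mul])
      _ ≤ ∑ a : Fin r, ∑ S ∈ (𝒬 a).filter (fun S => k ≤ S.card),
          3 * (D : ℝ) ^ k * (Λ : ℝ) ^ (N * R) := by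
        refine sum_le_sum (fun a _ => sum_le_sum (fun S hS => ?_))
        rw [mem_filter] at hS
        have h4 := hD a S hS.1
        exact Lam_bad W S h4 (by omega)
      _ ≤ ∑ a : Fin r, (s : ℝ) * (3 * (D : ℝ) ^ k * (Λ : ℝ) ^ (N * R)) := by
        refine sum_le_sum (fun a _ => ?_)
        rw [sum_const, nsmul_eq_mul]
        have h5 : ((((𝒬 a).filter (fun S => k ≤ S.card)).card : ℕ) : ℝ) ≤ s := by
          exact_mod_cast hs a
        gcongr
      _ = r * (s * (3 * (D : ℝ) ^ k * (Λ : ℝ) ^ (N * R))) := by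
        rw [sum_const, card_univ, Fintype.card_fin, nsmul_eq_mul]
  have h6 : (3 * r * s * D ^ k : ℝ) < (Λ : ℝ) ^ k := by exact_mod_cast hcount
  have h7 : (0 : ℝ) < (Λ : ℝ) ^ (N * R) := by positivity
  nlinarith

end Pool.Agent.helper5.CB
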