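import Pool.Agent.helper5.CB.Defs

set_option autoImplicit false
open Finset

namespace Pool.Agent.helper5.CB

/-- the number of points equal to one on `S` -/
theorem card_ones {n : ℕ} (S : Finset (Fin n)) :
    (univ.filter (fun x : Fin n → ZMod 2 => ∀ i ∈ S, x i = 1)).card * 2 ^ S.card = 2 ^ n := by
  classical
  have h1 : (univ.filter (fun x : Fin n → ZMod 2 => ∀ i ∈ S, x i = 1)) =
      Fintype.piFinset (fun i => if i ∈ S then {1} else univ) := by
    ext x
    rw [mem_filter, Fintype.mem_piFinset]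
    constructor
    · rintro ⟨-, h⟩ i
      by_cases hi : i ∈ S
      · rw [if_pos hi, mem_singleton]
        exact h i hi
      · rw [if_neg hi]
        exact mem_univ _
    · intro h
      refine ⟨mem_univ _, fun i hi => ?_⟩
      have h2 := h i
      rw [if_pos hi, mem_singleton] at h2
      exact h2
  have h2 : (2 : ℕ) ^ S.card = ∏ i : Fin n, if i ∈ S then 2 else 1 := by
    rw [prod_ite_mem, univ_inter, prod_const]
  rw [h1, Fintype.card_piFinset, h2, ← prod_mul_distrib]
  have h3 : ∀ i ∈ (univ : Finset (Fin n)),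
      (if i ∈ S then ({1} : Finset (ZMod 2)) else univ).card * (if i ∈ S then 2 else 1) = 2 := by
    intro i _
    by_cases hi : i ∈ S
    · rw [if_pos hi, if_pos hi, card_singleton]
    · rw [if_neg hi, if_neg hi, mul_one]
      rfl
  rw [prod_congr rfl h3, prod_const, card_univ, Fintype.card_fin]

theorem card_ones_le {n D : ℕ} {S : Finset (Fin n)} (h : D < S.card) :
    ((univ.filter (fun x : Fin n → ZMod 2 => ∀ i ∈ S, x i = 1)).card : ℝ) ≤ 2 ^ n / 2 ^ D := by
  have h1 : ((univ.filter (fun x : Fin n → ZMod 2 => ∀ i ∈ S, x i = 1)).card : ℝ) * 2 ^ S.card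
      = 2 ^ n := by exact_mod_cast card_ones S
  rw [← h1, mul_div_assoc]
  refine le_mul_of_one_le_right (Nat.cast_nonneg _) ?_
  rw [one_le_div (by positivity)]
  exact pow_le_pow_right₀ (by norm_num) h.le

theorem abs_sg_sub (a b : ZMod 2) : |sg a - sg b| ≤ 2 := by
  rcases zmod2_cases a with rfl | rfl <;> rcases zmod2_cases b with rfl | rfl <;>
    simp only [sg_zero, sg_one] <;> norm_num [abs_le]

/-- Removing the monomials of degree `> D`: they vanish outside a set of at most `r s 2^(n-D)` points. -/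
theorem remove_large {n r D s : ℕ} (f : (Fin n → ZMod 2) → ZMod 2)
    (Φ : (Fin n → ZMod 2) → (Fin r → ZMod 2) → ZMod 2) (𝒬 : Fin r → Finset (Finset (Fin n)))
    (hs : ∀ a, ((𝒬 a).filter (fun S => D < S.card)).card ≤ s) :
    |∑ x, sg (f x + Φ x (fun a => polyFun (𝒬 a) x)) -
      ∑ x, sg (f x + Φ x (fun a => polyFun ((𝒬 a).filter (fun S => S.card ≤ D)) x))|
      ≤ 2 * r * s * (2 ^ n / 2 ^ D : ℝ) := by
  classical
  have hpt : ∀ x : Fin n → ZMod 2, |sg (f x + Φ x (fun a => polyFun (𝒬 a) x)) -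
      sg (f x + Φ x (fun a => polyFun ((𝒬 a).filter (fun S => S.card ≤ D)) x))| ≤
      ∑ a : Fin r, ∑ S ∈ (𝒬 a).filter (fun S => D < S.card),
        if ∀ i ∈ S, x i = 1 then (2 : ℝ) else 0 := by
    intro x
    by_cases h : ∃ a : Fin r, ∃ S ∈ (𝒬 a).filter (fun S => D < S.card), ∀ i ∈ S, x i = 1
    · obtain ⟨a, S, hS, hx⟩ := h
      refine (abs_sg_sub _ _).trans ?_
      have h1 : (2 : ℝ) ≤ ∑ S ∈ (𝒬 a).filter (fun S => D < S.card),
          if ∀ i ∈ S, x i = 1 then (2 : ℝ) else 0 := by
        have h2 := single_le_sum (s := (𝒬 a).filter (fun S => D < S.card))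
          (f := fun S => if ∀ i ∈ S, x i = 1 then (2 : ℝ) else 0)
          (fun S _ => by split_ifs <;> norm_num) hS
        rwa [if_pos hx] at h2
      refine h1.trans ?_
      exact single_le_sum (f := fun a => ∑ S ∈ (𝒬 a).filter (fun S => D < S.card),
          if ∀ i ∈ S, x i = 1 then (2 : ℝ) else 0)
        (fun a _ => sum_nonneg fun S _ => by split_ifs <;> norm_num) (mem_univ a)
    · push Not at h
      have h1 : ∀ a, polyFun (𝒬 a) x = polyFun ((𝒬 a).filter (fun S => S.card ≤ D)) x := by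
        intro a
        unfold polyFun
        rw [← sum_filter_add_sum_filter_not (𝒬 a) (fun S => S.card ≤ D)]
        have h2 : ∑ S ∈ (𝒬 a).filter (fun S => ¬ S.card ≤ D), ∏ i ∈ S, x i = 0 := by
          refine sum_eq_zero fun S hS => ?_
          rw [mem_filter, not_le] at hS
          obtain ⟨i, hi, hxi⟩ := h a S (mem_filter.2 hS)
          refine prod_eq_zero hi ?_
          rcases zmod2_cases (x i) with h3 | h3
          · exact h3
          · exact absurd h3 hxi
        rw [h2, add_zero]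
      have h2 : (fun a => polyFun (𝒬 a) x) =
          fun a => polyFun ((𝒬 a).filter (fun S => S.card ≤ D)) x := funext h1
      rw [h2, sub_self, abs_zero]
      exact sum_nonneg fun a _ => sum_nonneg fun S _ => by split_ifs <;> norm_num
  rw [← sum_sub_distrib]
  refine (abs_sum_le_sum_abs _ _).trans ((sum_le_sum fun x _ => hpt x).trans ?_)
  rw [sum_comm]
  have h1 : ∀ a ∈ (univ : Finset (Fin r)), ∑ x : Fin n → ZMod 2,
      ∑ S ∈ (𝒬 a).filter (fun S => D < S.card), (if ∀ i ∈ S, x i = 1 then (2 : ℝ) else 0) ≤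
      s * (2 * (2 ^ n / 2 ^ D)) := by
    intro a _
    rw [sum_comm]
    have h2 : ∀ S ∈ (𝒬 a).filter (fun S => D < S.card),
        ∑ x : Fin n → ZMod 2, (if ∀ i ∈ S, x i = 1 then (2 : ℝ) else 0) ≤ 2 * (2 ^ n / 2 ^ D) := by
      intro S hS
      rw [mem_filter] at hS
      rw [← sum_filter, sum_const, nsmul_eq_mul, mul_comm]
      exact mul_le_mul_of_nonneg_left (card_ones_le hS.2) (by norm_num)
    refine (sum_le_card_nsmul _ _ _ h2).trans ?_
    rw [nsmul_eq_mul]
    exact mul_le_mul_of_nonneg_right (by exact_mod_cast hs a) (by positivity)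
  refine (sum_le_card_nsmul _ _ _ h1).trans (le_of_eq ?_)
  rw [card_univ, Fintype.card_fin, nsmul_eq_mul]
  ring

end Pool.Agent.helper5.CB
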