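import Pool.Agent.helper5.CB.Flip

/-!
# CB project (MP_bd3c72_lc): averaging over the orbits, bad points

Statements: helper5. Proofs: helper6.
-/

set_option autoImplicit false
open Finset

namespace Pool.Agent.helper5.CB

variable {n N r B R Λ : ℕ} {π : Fin n → Fin r} {fav : Fin N → Fin r}

/-- For the choice `lam` of one pair in every group, the parity of the chosen pair. -/
def Wiring.e (W : Wiring B R Λ π fav) (lam : Fin N → Fin R → Fin Λ) (x : Fin n → ZMod 2) (c : Fin N)
    (ρ : Fin R) : ZMod 2 :=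
  x (W.a c ρ (lam c ρ)) + x (W.b c ρ (lam c ρ))

/-- The good points: every non-root cell has a chosen pair with different values. -/
def Wiring.Good (W : Wiring B R Λ π fav) (lam : Fin N → Fin R → Fin Λ) : Finset (Fin n → ZMod 2) :=
  univ.filter fun x => ∀ c, ¬ Root fav c → ∃ ρ, W.e lam x c ρ = 1

/-- A choice of a group with different values, depending only on the parities `e`. -/
noncomputable def Wiring.rho (W : Wiring B R Λ π fav) [Nonempty (Fin R)] (lam : Fin N → Fin R → Fin Λ)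
    (x : Fin n → ZMod 2) (c : Fin N) : Fin R :=
  Classical.epsilon fun ρ => W.e lam x c ρ = 1

noncomputable def Wiring.p (W : Wiring B R Λ π fav) [Nonempty (Fin R)] (lam : Fin N → Fin R → Fin Λ)
    (x : Fin n → ZMod 2) (c : Fin N) : Fin n :=
  W.a c (W.rho lam x c) (lam c (W.rho lam x c))

noncomputable def Wiring.q (W : Wiring B R Λ π fav) [Nonempty (Fin R)] (lam : Fin N → Fin R → Fin Λ)
    (x : Fin n → ZMod 2) (c : Fin N) : Fin n :=
  W.b c (W.rho lam x c) (lam c (W.rho lam x c))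

/-- the change of one variable by a flip -/
def Orbit_del (fav : Fin N → Fin r) (p q : Fin N → Fin n) (s : Fin N → ZMod 2) (i : Fin n) :
    ZMod 2 :=
  ∑ c ∈ univ.filter (fun c => ¬ Root fav c ∧ (i = p c ∨ i = q c)), s c

theorem Orbit_add_self (a : ZMod 2) : a + a = 0 := by revert a; decide

theorem Orbit_del_congr {p q p' q' : Fin N → Fin n} (hp : ∀ c, ¬ Root fav c → p c = p' c)
    (hq : ∀ c, ¬ Root fav c → q c = q' c) (s : Fin N → ZMod 2) (i : Fin n) :
    Orbit_del fav p q s i = Orbit_del fav p' q' s i := by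
  unfold Orbit_del
  congr 1
  ext c
  simp only [Finset.mem_filter, Finset.mem_univ, true_and]
  constructor
  · rintro ⟨h1, h2⟩
    exact ⟨h1, by rw [← hp c h1, ← hq c h1]; exact h2⟩
  · rintro ⟨h1, h2⟩
    exact ⟨h1, by rw [hp c h1, hq c h1]; exact h2⟩

/-- the change of the variables of the pair `(c, ρ)` -/
theorem Orbit_del_a (W : Wiring B R Λ π fav) (lam : Fin N → Fin R → Fin Λ)
    (σ : Fin N → Fin R) (s : Fin N → ZMod 2) {c : Fin N} (hc : ¬ Root fav c) (ρ : Fin R) :
    Orbit_del fav (fun c => W.a c (σ c) (lam c (σ c))) (fun c => W.b c (σ c) (lam c (σ c))) s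
      (W.a c ρ (lam c ρ)) = if ρ = σ c then s c else 0 := by
  unfold Orbit_del
  have h1 : univ.filter (fun c' => ¬ Root fav c' ∧
      (W.a c ρ (lam c ρ) = W.a c' (σ c') (lam c' (σ c')) ∨
        W.a c ρ (lam c ρ) = W.b c' (σ c') (lam c' (σ c')))) =
      if ρ = σ c then {c} else ∅ := by
    ext c'
    rw [Finset.mem_filter]
    constructor
    · rintro ⟨-, h1, h2 | h2⟩
      · obtain ⟨rfl, h3, -⟩ := W.a_inj _ _ _ _ _ _ hc h1 h2
        rw [if_pos h3]
        exact Finset.mem_singleton_self _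
      · exact absurd h2 (W.ab_ne _ _ _ _ _ _ hc h1)
    · intro h
      split_ifs at h with h3
      · rw [Finset.mem_singleton] at h
        subst h
        exact ⟨Finset.mem_univ _, hc, Or.inl (by rw [← h3])⟩
      · exact absurd h (Finset.notMem_empty _)
  rw [h1]
  split_ifs
  · rw [Finset.sum_singleton]
  · rw [Finset.sum_empty]

theorem Orbit_del_b (W : Wiring B R Λ π fav) (lam : Fin N → Fin R → Fin Λ)
    (σ : Fin N → Fin R) (s : Fin N → ZMod 2) {c : Fin N} (hc : ¬ Root fav c) (ρ : Fin R) :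
    Orbit_del fav (fun c => W.a c (σ c) (lam c (σ c))) (fun c => W.b c (σ c) (lam c (σ c))) s
      (W.b c ρ (lam c ρ)) = if ρ = σ c then s c else 0 := by
  unfold Orbit_del
  have h1 : univ.filter (fun c' => ¬ Root fav c' ∧
      (W.b c ρ (lam c ρ) = W.a c' (σ c') (lam c' (σ c')) ∨
        W.b c ρ (lam c ρ) = W.b c' (σ c') (lam c' (σ c')))) =
      if ρ = σ c then {c} else ∅ := by
    ext c'
    rw [Finset.mem_filter]
    constructor
    · rintro ⟨-, h1, h2 | h2⟩
      · exact absurd h2.symm (W.ab_ne _ _ _ _ _ _ h1 hc)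
      · obtain ⟨rfl, h3, -⟩ := W.b_inj _ _ _ _ _ _ hc h1 h2
        rw [if_pos h3]
        exact Finset.mem_singleton_self _
    · intro h
      split_ifs at h with h3
      · rw [Finset.mem_singleton] at h
        subst h
        exact ⟨Finset.mem_univ _, hc, Or.inr (by rw [← h3])⟩
      · exact absurd h (Finset.notMem_empty _)
  rw [h1]
  split_ifs
  · rw [Finset.sum_singleton]
  · rw [Finset.sum_empty]

/-- the flip for the chosen pairs -/
noncomputable def Orbit_T (W : Wiring B R Λ π fav) [Nonempty (Fin R)]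
    (lam : Fin N → Fin R → Fin Λ) (s : Fin N → ZMod 2) (x : Fin n → ZMod 2) : Fin n → ZMod 2 :=
  flip fav (W.p lam x) (W.q lam x) s x

theorem Orbit_T_apply (W : Wiring B R Λ π fav) [Nonempty (Fin R)]
    (lam : Fin N → Fin R → Fin Λ) (s : Fin N → ZMod 2) (x : Fin n → ZMod 2) (i : Fin n) :
    Orbit_T W lam s x i = x i + Orbit_del fav (W.p lam x) (W.q lam x) s i := rfl

theorem Orbit_e (W : Wiring B R Λ π fav) [Nonempty (Fin R)]
    (lam : Fin N → Fin R → Fin Λ) (s : Fin N → ZMod 2) (x : Fin n → ZMod 2) {c : Fin N}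
    (hc : ¬ Root fav c) (ρ : Fin R) : W.e lam (Orbit_T W lam s x) c ρ = W.e lam x c ρ := by
  unfold Wiring.e
  rw [Orbit_T_apply, Orbit_T_apply]
  have h1 := Orbit_del_a W lam (fun c => W.rho lam x c) s hc ρ
  have h2 := Orbit_del_b W lam (fun c => W.rho lam x c) s hc ρ
  have h3 : Orbit_del fav (W.p lam x) (W.q lam x) s (W.a c ρ (lam c ρ)) =
      if ρ = W.rho lam x c then s c else 0 := h1
  have h4 : Orbit_del fav (W.p lam x) (W.q lam x) s (W.b c ρ (lam c ρ)) =
      if ρ = W.rho lam x c then s c else 0 := h2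
  rw [h3, h4]
  have h5 := Orbit_add_self (if ρ = W.rho lam x c then s c else 0)
  linear_combination h5

theorem Orbit_rho (W : Wiring B R Λ π fav) [Nonempty (Fin R)]
    (lam : Fin N → Fin R → Fin Λ) (s : Fin N → ZMod 2) (x : Fin n → ZMod 2) {c : Fin N}
    (hc : ¬ Root fav c) : W.rho lam (Orbit_T W lam s x) c = W.rho lam x c := by
  unfold Wiring.rho
  have h : (fun ρ => W.e lam (Orbit_T W lam s x) c ρ = 1) = fun ρ => W.e lam x c ρ = 1 := by
    funext ρ
    rw [Orbit_e W lam s x hc ρ]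
  rw [h]

theorem Orbit_TT (W : Wiring B R Λ π fav) [Nonempty (Fin R)]
    (lam : Fin N → Fin R → Fin Λ) (s : Fin N → ZMod 2) (x : Fin n → ZMod 2) :
    Orbit_T W lam s (Orbit_T W lam s x) = x := by
  funext i
  rw [Orbit_T_apply, Orbit_T_apply]
  have h1 : Orbit_del fav (W.p lam (Orbit_T W lam s x)) (W.q lam (Orbit_T W lam s x)) s i =
      Orbit_del fav (W.p lam x) (W.q lam x) s i := by
    refine Orbit_del_congr (fun c hc => ?_) (fun c hc => ?_) s i
    · unfold Wiring.p
      rw [Orbit_rho W lam s x hc]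
    · unfold Wiring.q
      rw [Orbit_rho W lam s x hc]
  rw [h1]
  have h5 := Orbit_add_self (Orbit_del fav (W.p lam x) (W.q lam x) s i)
  linear_combination h5

theorem Orbit_good (W : Wiring B R Λ π fav) [Nonempty (Fin R)]
    (lam : Fin N → Fin R → Fin Λ) (s : Fin N → ZMod 2) {x : Fin n → ZMod 2}
    (hx : x ∈ W.Good lam) : Orbit_T W lam s x ∈ W.Good lam := by
  unfold Wiring.Good at hx ⊢
  rw [Finset.mem_filter] at hx ⊢
  refine ⟨Finset.mem_univ _, fun c hc => ?_⟩
  obtain ⟨ρ, hρ⟩ := hx.2 c hc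
  exact ⟨ρ, by rw [Orbit_e W lam s x hc ρ]; exact hρ⟩

/-- Averaging over the orbits: for fixed `s` the map `x ↦ flip (p x) (q x) s x` is an involution of the good set,
because it does not change the parities `e` (both variables of a pair are flipped, the pairs are disjoint), hence
does not change `rho`, `p`, `q`. -/
theorem orbit_average (W : Wiring B R Λ π fav) [Nonempty (Fin R)] (lam : Fin N → Fin R → Fin Λ)
    (G : (Fin n → ZMod 2) → ℝ) :
    ((US fav).card : ℝ) * ∑ x ∈ W.Good lam, G x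
      = ∑ x ∈ W.Good lam, ∑ s ∈ US fav, G (flip fav (W.p lam x) (W.q lam x) s x) := by
  rw [Finset.sum_comm, ← nsmul_eq_mul, ← Finset.sum_const]
  refine Finset.sum_congr rfl fun s _ => ?_
  exact Finset.sum_nbij' (Orbit_T W lam s) (Orbit_T W lam s)
    (fun x hx => Orbit_good W lam s hx) (fun x hx => Orbit_good W lam s hx)
    (fun x _ => Orbit_TT W lam s x) (fun x _ => Orbit_TT W lam s x)
    (fun x _ => by
      change G x = G (Orbit_T W lam s (Orbit_T W lam s x))
      rw [Orbit_TT])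

/-- the points where all chosen pairs of the cell `c` have equal values -/
def Orbit_bad (W : Wiring B R Λ π fav) (lam : Fin N → Fin R → Fin Λ) (c : Fin N) :
    Finset (Fin n → ZMod 2) := univ.filter fun x => ∀ ρ, W.e lam x c ρ = 0

theorem Orbit_bad_card (W : Wiring B R Λ π fav) (lam : Fin N → Fin R → Fin Λ) {c : Fin N}
    (hc : ¬ Root fav c) : (Orbit_bad W lam c).card * 2 ^ R ≤ 2 ^ n := by
  have h1 : (Orbit_bad W lam c ×ˢ (univ : Finset (Fin R → ZMod 2))).card =
      (Orbit_bad W lam c).card * 2 ^ R := by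
    rw [Finset.card_product, Finset.card_univ, Fintype.card_pi]
    simp [ZMod.card]
  have h2 : (univ : Finset (Fin n → ZMod 2)).card = 2 ^ n := by
    rw [Finset.card_univ, Fintype.card_pi]
    simp [ZMod.card]
  rw [← h1, ← h2]
  let f : (Fin n → ZMod 2) × (Fin R → ZMod 2) → (Fin n → ZMod 2) := fun z i =>
    z.1 i + ∑ ρ ∈ univ.filter (fun ρ => i = W.a c ρ (lam c ρ)), z.2 ρ
  have hfa : ∀ z ρ, f z (W.a c ρ (lam c ρ)) = z.1 (W.a c ρ (lam c ρ)) + z.2 ρ := by
    intro z ρ
    have e : univ.filter (fun ρ' => W.a c ρ (lam c ρ) = W.a c ρ' (lam c ρ')) = {ρ} := by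
      ext ρ'
      rw [Finset.mem_filter, Finset.mem_singleton]
      constructor
      · rintro ⟨-, h⟩
        exact (W.a_inj _ _ _ _ _ _ hc hc h).2.1.symm
      · rintro rfl
        exact ⟨Finset.mem_univ _, rfl⟩
    change z.1 _ + ∑ ρ' ∈ univ.filter (fun ρ' => W.a c ρ (lam c ρ) = W.a c ρ' (lam c ρ')), z.2 ρ'
      = _
    rw [e, Finset.sum_singleton]
  have hfb : ∀ z ρ, f z (W.b c ρ (lam c ρ)) = z.1 (W.b c ρ (lam c ρ)) := by
    intro z ρ
    have e : univ.filter (fun ρ' => W.b c ρ (lam c ρ) = W.a c ρ' (lam c ρ')) = ∅ := by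
      rw [Finset.filter_eq_empty_iff]
      intro ρ' _ h
      exact W.ab_ne _ _ _ _ _ _ hc hc h.symm
    change z.1 _ + ∑ ρ' ∈ univ.filter (fun ρ' => W.b c ρ (lam c ρ) = W.a c ρ' (lam c ρ')), z.2 ρ'
      = _
    rw [e, Finset.sum_empty, add_zero]
  refine Finset.card_le_card_of_injOn f (fun z _ => Finset.mem_coe.2 (Finset.mem_univ _)) ?_
  intro z hz z' hz' hzz
  have hz1 : ∀ ρ, W.e lam z.1 c ρ = 0 := by
    have := (Finset.mem_product.1 (Finset.mem_coe.1 hz)).1
    exact (Finset.mem_filter.1 this).2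
  have hz1' : ∀ ρ, W.e lam z'.1 c ρ = 0 := by
    have := (Finset.mem_product.1 (Finset.mem_coe.1 hz')).1
    exact (Finset.mem_filter.1 this).2
  have key : ∀ z : (Fin n → ZMod 2) × (Fin R → ZMod 2), (∀ ρ, W.e lam z.1 c ρ = 0) →
      ∀ ρ, z.2 ρ = f z (W.a c ρ (lam c ρ)) + f z (W.b c ρ (lam c ρ)) := by
    intro z hz ρ
    rw [hfa, hfb]
    have h3 := hz ρ
    unfold Wiring.e at h3
    linear_combination -h3
  have ht : z.2 = z'.2 := by
    funext ρ
    rw [key z hz1 ρ, key z' hz1' ρ, hzz]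
  have hx : z.1 = z'.1 := by
    funext i
    have h3 := congrFun hzz i
    simp only [f] at h3
    rw [ht] at h3
    exact add_right_cancel h3
  exact Prod.ext hx ht

/-- Few bad points. -/
theorem bad_card (W : Wiring B R Λ π fav) (lam : Fin N → Fin R → Fin Λ) :
    (univ \ W.Good lam).card * 2 ^ R ≤ N * 2 ^ n := by
  classical
  have h1 : univ \ W.Good lam ⊆
      (univ.filter fun c => ¬ Root fav c).biUnion fun c => Orbit_bad W lam c := by
    intro x hx
    rw [Finset.mem_sdiff] at hx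
    have h2 := hx.2
    unfold Wiring.Good at h2
    rw [Finset.mem_filter] at h2
    push Not at h2
    obtain ⟨c, hc, hx'⟩ := h2 (Finset.mem_univ _)
    rw [Finset.mem_biUnion]
    refine ⟨c, by rw [Finset.mem_filter]; exact ⟨Finset.mem_univ _, hc⟩, ?_⟩
    unfold Orbit_bad
    rw [Finset.mem_filter]
    exact ⟨Finset.mem_univ _, fun ρ => (zmod2_cases _).resolve_right (hx' ρ)⟩
  calc (univ \ W.Good lam).card * 2 ^ R
      ≤ (∑ c ∈ univ.filter fun c => ¬ Root fav c, (Orbit_bad W lam c).card) * 2 ^ R :=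
        Nat.mul_le_mul_right _ ((Finset.card_le_card h1).trans Finset.card_biUnion_le)
    _ = ∑ c ∈ univ.filter fun c => ¬ Root fav c, (Orbit_bad W lam c).card * 2 ^ R := by
        rw [Finset.sum_mul]
    _ ≤ ∑ _c ∈ univ.filter fun c : Fin N => ¬ Root fav c, 2 ^ n :=
        Finset.sum_le_sum fun c hc => Orbit_bad_card W lam (Finset.mem_filter.1 hc).2
    _ = (univ.filter fun c : Fin N => ¬ Root fav c).card * 2 ^ n := by
        rw [Finset.sum_const, smul_eq_mul]
    _ ≤ N * 2 ^ n := by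
        refine Nat.mul_le_mul_right _ ((Finset.card_filter_le _ _).trans ?_)
        rw [Finset.card_univ, Fintype.card_fin]

end Pool.Agent.helper5.CB
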