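import Pool.Agent.helper5.CB.Defs

set_option autoImplicit false
open Finset

namespace Pool.Agent.helper5.CB

section
variable {N r : ℕ} {fav : Fin N → Fin r}

private theorem isPrev_unique {c c₁ c₂ : Fin N} (h₁ : IsPrev fav c₁ c) (h₂ : IsPrev fav c₂ c) :
    c₁ = c₂ := by
  rcases lt_trichotomy c₁ c₂ with h | h | h
  · exact absurd h₂.2.1 (h₁.2.2 _ h h₂.1)
  · exact h
  · exact absurd h₁.2.1 (h₂.2.2 _ h h₁.1)

private theorem isPrev_inj {d c₁ c₂ : Fin N} (h₁ : IsPrev fav d c₁) (h₂ : IsPrev fav d c₂) :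
    c₁ = c₂ := by
  rcases lt_trichotomy c₁ c₂ with h | h | h
  · exact absurd (h₁.2.1.symm.trans h₂.2.1) (h₂.2.2 _ h₁.1 h)
  · exact h
  · exact absurd (h₂.2.1.symm.trans h₁.2.1) (h₁.2.2 _ h₂.1 h)

private theorem exists_isPrev {c : Fin N} (h : ¬ Root fav c) : ∃ c', IsPrev fav c' c := by
  classical
  unfold Root at h
  push Not at h
  obtain ⟨c₀, hc₀, hf₀⟩ := h
  have hne : (univ.filter fun c' : Fin N => c' < c ∧ fav c' = fav c).Nonempty :=
    ⟨c₀, by simp [hc₀, hf₀]⟩
  have hmem := Finset.max'_mem _ hne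
  rw [mem_filter] at hmem
  refine ⟨_, hmem.2.1, hmem.2.2, fun d hd hdc hfd => ?_⟩
  exact absurd hd (not_lt.2 (Finset.le_max' _ d (by simp [hdc, hfd])))

end

/-- Every cell `c` (block of `B ≥ 2 R Λ r` variables) has a favourite colour `fav c` with at least `2 R Λ` variables;
choose an injection `v c : Bool × Fin R × Fin Λ → {i | i / B = c, π i = fav c}`; put `b c ρ μ = v c (true, ρ, μ)`,
`a c ρ μ = v (previous cell of c) (false, ρ, μ)` (anything at the roots). -/
theorem exists_wiring {n N r B R Λ : ℕ} (π : Fin n → Fin r) (hn : N * B ≤ n) (hB : 2 * R * Λ * r ≤ B)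
    (hr : 1 ≤ r) (hR : 1 ≤ R) (hΛ : 1 ≤ Λ) :
    ∃ fav : Fin N → Fin r, Nonempty (Wiring B R Λ π fav) := by
  classical
  have hB0 : 0 < B := lt_of_lt_of_le (by positivity) hB
  have hcell : ∀ c : Fin N, (univ.filter fun i : Fin n => i.val / B = c.val).card = B := by
    intro c
    have hc : ∀ b : Fin B, c.val * B + b.val < n := by
      intro b
      have h1 : (c.val + 1) * B ≤ N * B := Nat.mul_le_mul_right _ c.isLt
      have h2 := b.isLt
      have h3 : (c.val + 1) * B = c.val * B + B := by ring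
      omega
    have himg : (univ.filter fun i : Fin n => i.val / B = c.val) =
        (univ : Finset (Fin B)).image (fun b => (⟨c.val * B + b.val, hc b⟩ : Fin n)) := by
      ext i
      simp only [mem_filter, mem_univ, true_and, mem_image]
      constructor
      · intro hi
        refine ⟨⟨i.val % B, Nat.mod_lt _ hB0⟩, ?_⟩
        apply Fin.ext
        change c.val * B + i.val % B = i.val
        rw [← hi]
        exact Nat.div_add_mod' _ _
      · rintro ⟨b, rfl⟩
        change (c.val * B + b.val) / B = c.val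
        rw [mul_comm, Nat.mul_add_div hB0, Nat.div_eq_of_lt b.isLt, add_zero]
    rw [himg, card_image_of_injective, card_univ, Fintype.card_fin]
    intro b₁ b₂ h
    have h' : c.val * B + b₁.val = c.val * B + b₂.val := congrArg Fin.val h
    exact Fin.ext (by omega)
  have hpig : ∀ c : Fin N, ∃ j : Fin r, 2 * R * Λ ≤
      ((univ.filter fun i : Fin n => i.val / B = c.val).filter fun i => π i = j).card := by
    intro c
    have hne : (univ : Finset (Fin r)).Nonempty := ⟨⟨0, hr⟩, mem_univ _⟩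
    obtain ⟨j, -, hj⟩ := Finset.exists_le_card_fiber_of_mul_le_card_of_maps_to
      (s := univ.filter fun i : Fin n => i.val / B = c.val) (t := (univ : Finset (Fin r)))
      (f := π) (n := 2 * R * Λ) (fun _ _ => mem_univ _) hne (by
        rw [hcell, card_univ, Fintype.card_fin, mul_comm]
        exact hB)
    exact ⟨j, hj⟩
  choose fav hfav using hpig
  have hemb : ∀ c : Fin N, ∃ v : Bool × Fin R × Fin Λ → Fin n, Function.Injective v ∧
      ∀ q, (v q).val / B = c.val ∧ π (v q) = fav c := by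
    intro c
    obtain ⟨T, hT⟩ : ∃ T : Finset (Fin n), T =
        (univ.filter fun i : Fin n => i.val / B = c.val).filter fun i => π i = fav c := ⟨_, rfl⟩
    have hcard : Fintype.card (Bool × Fin R × Fin Λ) ≤ Fintype.card T := by
      rw [Fintype.card_coe, hT]
      refine le_trans (le_of_eq ?_) (hfav c)
      simp [mul_assoc]
    obtain ⟨e⟩ := Function.Embedding.nonempty_of_card_le hcard
    refine ⟨fun q => (e q).1, fun q q' h => e.injective (Subtype.ext h), fun q => ?_⟩
    have h : ∀ t ∈ T, t.val / B = c.val ∧ π t = fav c := by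
      intro t ht
      rw [hT, mem_filter, mem_filter] at ht
      exact ⟨ht.1.2, ht.2⟩
    exact h _ (e q).2
  choose v hvinj hv using hemb
  let prev : Fin N → Fin N := fun c => if h : ∃ c', IsPrev fav c' c then h.choose else c
  have hprev : ∀ c' c, IsPrev fav c' c → prev c = c' := by
    intro c' c h
    have hex : ∃ c', IsPrev fav c' c := ⟨c', h⟩
    have h1 : prev c = hex.choose := dif_pos hex
    rw [h1]
    exact isPrev_unique hex.choose_spec h
  have hprev' : ∀ c, ¬ Root fav c → IsPrev fav (prev c) c := by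
    intro c hc
    obtain ⟨c', hc'⟩ := exists_isPrev hc
    rw [hprev _ _ hc']
    exact hc'
  refine ⟨fav, ⟨{
    a := fun c ρ μ => v (prev c) (false, ρ, μ)
    b := fun c ρ μ => v c (true, ρ, μ)
    a_cell := ?_
    b_cell := ?_
    ab_block := ?_
    a_inj := ?_
    b_inj := ?_
    ab_ne := ?_ }⟩⟩
  · intro c' c ρ μ h
    rw [hprev _ _ h]
    exact (hv c' _).1
  · intro c ρ μ _
    exact (hv c _).1
  · intro c ρ μ hc
    rw [(hv (prev c) _).2, (hv c _).2]
    exact (hprev' c hc).2.1
  · intro c ρ μ c₂ ρ₂ μ₂ hc hc₂ h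
    have h1 : prev c = prev c₂ := by
      apply Fin.ext
      rw [← (hv (prev c) (false, ρ, μ)).1, h, (hv (prev c₂) (false, ρ₂, μ₂)).1]
    have h2 := hprev' c hc
    have h3 := hprev' c₂ hc₂
    rw [← h1] at h3
    rw [← h1] at h
    have h4 := hvinj _ h
    simp only [Prod.mk.injEq, true_and] at h4
    exact ⟨isPrev_inj h2 h3, h4.1, h4.2⟩
  · intro c ρ μ c₂ ρ₂ μ₂ hc hc₂ h
    have h1 : c = c₂ := by
      apply Fin.ext
      rw [← (hv c (true, ρ, μ)).1, h, (hv c₂ (true, ρ₂, μ₂)).1]
    subst h1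
    have h4 := hvinj _ h
    simp only [Prod.mk.injEq, true_and] at h4
    exact ⟨rfl, h4.1, h4.2⟩
  · intro c ρ μ c₂ ρ₂ μ₂ _ _ h
    have h1 : prev c = c₂ := by
      apply Fin.ext
      rw [← (hv (prev c) (false, ρ, μ)).1, h, (hv c₂ (true, ρ₂, μ₂)).1]
    rw [h1] at h
    have h4 := hvinj _ h
    simp at h4

end Pool.Agent.helper5.CB
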