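import Pool.Agent.helper5.CB.FixedX
import Pool.Agent.helper5.CB.Orbit
import Pool.Agent.helper5.CB.Lam
import Pool.Agent.helper5.CB.Wire
import Pool.Agent.helper5.CB.Large
import Pool.Agent.helper5.CB.HardEq
import Pool.Agent.helper5.CB.GipBound

set_option autoImplicit false
open Finset

namespace Pool.Agent.helper5.CB

/-- The bound for families without monomials of degree `> D`. -/
theorem core_small {n k M B r R Λ D s : ℕ} (hk : 2 ≤ k) (hn : M * k * B ≤ n)
    (hB : 2 * R * Λ * r ≤ B) (hr : 1 ≤ r) (hR : 1 ≤ R) (hΛ : 1 ≤ Λ)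
    (hcount : 3 * r * s * D ^ k < Λ ^ k)
    (π : Fin n → Fin r) (𝒬 : Fin r → Finset (Finset (Fin n)))
    (hD : ∀ a, ∀ S ∈ 𝒬 a, S.card ≤ D)
    (hs : ∀ a, ((𝒬 a).filter (fun S => k ≤ S.card)).card ≤ s)
    (Φ : (Fin r → ℕ) → (Fin r → ZMod 2) → ZMod 2) :
    |∑ x : Fin n → ZMod 2, sg (hard k M B x + Φ (wt π x) (fun a => polyFun (𝒬 a) x))|
      ≤ 2 ^ n * ((M * k) / 2 ^ R + 4 ^ r * (2 : ℝ) ^ (-((M : ℝ) / 2 ^ k))) := by
  classical
  obtain ⟨fav, ⟨W⟩⟩ := exists_wiring (N := M * k) (B := B) (R := R) (Λ := Λ) π hn hB hr hR hΛ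
  obtain ⟨lam, hlam⟩ := exists_lam W hΛ (k := k) (D := D) (s := s) (by omega) 𝒬 hD hs hcount
  have : Nonempty (Fin R) := ⟨⟨0, hR⟩⟩
  set G : (Fin n → ZMod 2) → ℝ := fun x =>
    sg (hard k M B x + Φ (wt π x) (fun a => polyFun (𝒬 a) x)) with hG
  set E : ℝ := 2 ^ (M * k) * (2 : ℝ) ^ (-((M : ℝ) / 2 ^ k)) with hE
  have hE0 : 0 ≤ E := by positivity
  -- orbit bound
  have hprev : ∀ c : Fin (M * k), ¬ Root fav c → ∃ c', IsPrev fav c' c := fun c hc => exists_isPrev fav hc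
  have horb : ∀ x ∈ W.Good lam,
      |∑ s ∈ US fav, G (flip fav (W.p lam x) (W.q lam x) s x)| ≤ 2 ^ r * E := by
    intro x hx
    have hxg : ∀ c, ¬ Root fav c → ∃ ρ, W.e lam x c ρ = 1 := by
      have := (Finset.mem_filter.mp hx).2
      exact this
    have hrho : ∀ c, ¬ Root fav c → W.e lam x c (W.rho lam x c) = 1 := by
      intro c hc
      exact Classical.epsilon_spec (hxg c hc)
    have key := fixed_x (n := n) (M := M) (k := k) (r := r) (B := B) hk fav (W.p lam x) (W.q lam x) π x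
      (by
        intro c c₂ hc hc₂ h
        exact (W.a_inj _ _ _ _ _ _ hc hc₂ h).1)
      (by
        intro c c₂ hc hc₂ h
        exact (W.b_inj _ _ _ _ _ _ hc hc₂ h).1)
      (by
        intro c c₂ hc hc₂
        exact W.ab_ne _ _ _ _ _ _ hc hc₂)
      (by
        intro c hc
        exact W.ab_block _ _ _ hc)
      (by
        intro c hc
        exact hrho c hc)
      (by
        intro c' c h
        exact W.a_cell _ _ _ _ h)
      (by
        intro c hc
        exact W.b_cell _ _ _ hc)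
      𝒬
      (by
        intro a S hS
        refine lt_of_le_of_lt ?_ (hlam a S hS)
        refine Finset.card_le_card_of_injOn (fun c => (c, W.rho lam x c)) ?_ ?_
        · intro c hc
          have hc' := (Finset.mem_filter.mp hc).2
          simp only [Finset.coe_filter, Finset.mem_univ, true_and, Set.mem_ofPred_eq]
          exact ⟨hc'.1, hc'.2⟩
        · intro c _ c₂ _ h
          exact (Prod.mk.inj h).1)
      Φ E (fun g hg => gip_bound (by omega) g hg)
    simpa only [hG, hard_eq hk hn] using key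
  have havg := orbit_average W lam G
  have hUS : (2 : ℝ) ^ (M * k) ≤ 2 ^ r * ((US fav).card : ℝ) := by
    exact_mod_cast two_pow_le_card_US fav
  have hUSpos : (0 : ℝ) < ((US fav).card : ℝ) := by
    have h1 : (0 : ℝ) < 2 ^ (M * k) := by positivity
    by_contra hcon
    have h2 : ((US fav).card : ℝ) = 0 := le_antisymm (not_lt.mp hcon) (Nat.cast_nonneg _)
    rw [h2, mul_zero] at hUS
    linarith
  -- good part
  have hcardGood : ((W.Good lam).card : ℝ) ≤ 2 ^ n := by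
    have h1 : (W.Good lam).card ≤ (univ : Finset (Fin n → ZMod 2)).card := Finset.card_le_univ _
    have h2 : (univ : Finset (Fin n → ZMod 2)).card = 2 ^ n := by
      rw [Finset.card_univ, Fintype.card_fun, ZMod.card, Fintype.card_fin]
    rw [h2] at h1
    exact_mod_cast h1
  have hgood : |∑ x ∈ W.Good lam, G x| ≤ 2 ^ n * (4 ^ r * (2 : ℝ) ^ (-((M : ℝ) / 2 ^ k))) := by
    have h1 : ((US fav).card : ℝ) * |∑ x ∈ W.Good lam, G x| ≤ 2 ^ n * (2 ^ r * E) := by
      have h0 : ((US fav).card : ℝ) * |∑ x ∈ W.Good lam, G x|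
          = |((US fav).card : ℝ) * ∑ x ∈ W.Good lam, G x| := by
        rw [abs_mul, abs_of_pos hUSpos]
      rw [h0, havg]
      refine le_trans (Finset.abs_sum_le_sum_abs _ _) ?_
      refine le_trans (Finset.sum_le_sum horb) ?_
      rw [Finset.sum_const, nsmul_eq_mul]
      exact mul_le_mul_of_nonneg_right hcardGood (by positivity)
    have h2 : (2 : ℝ) ^ (M * k) * |∑ x ∈ W.Good lam, G x| ≤ 2 ^ r * (2 ^ n * (2 ^ r * E)) := by
      calc (2 : ℝ) ^ (M * k) * |∑ x ∈ W.Good lam, G x|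
          ≤ (2 ^ r * ((US fav).card : ℝ)) * |∑ x ∈ W.Good lam, G x| :=
            mul_le_mul_of_nonneg_right hUS (abs_nonneg _)
        _ = 2 ^ r * (((US fav).card : ℝ) * |∑ x ∈ W.Good lam, G x|) := by ring
        _ ≤ 2 ^ r * (2 ^ n * (2 ^ r * E)) := mul_le_mul_of_nonneg_left h1 (by positivity)
    have h3 : (0 : ℝ) < 2 ^ (M * k) := by positivity
    have h4 : (2 : ℝ) ^ r * (2 ^ n * (2 ^ r * E))
        = 2 ^ (M * k) * (2 ^ n * (4 ^ r * (2 : ℝ) ^ (-((M : ℝ) / 2 ^ k)))) := by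
      have : (4 : ℝ) ^ r = 2 ^ r * 2 ^ r := by
        rw [← mul_pow]; norm_num
      rw [this, hE]; ring
    rw [h4] at h2
    exact le_of_mul_le_mul_left h2 h3
  -- bad part
  have hbad : |∑ x ∈ univ \ W.Good lam, G x| ≤ 2 ^ n * ((M * k) / 2 ^ R) := by
    have h1 : |∑ x ∈ univ \ W.Good lam, G x| ≤ ((univ \ W.Good lam).card : ℝ) := by
      refine le_trans (Finset.abs_sum_le_sum_abs _ _) ?_
      simp only [hG, abs_sg]
      simp
    have h2 : (((univ \ W.Good lam).card : ℝ)) * 2 ^ R ≤ (M * k) * 2 ^ n := by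
      exact_mod_cast bad_card W lam
    have h3 : (0 : ℝ) < 2 ^ R := by positivity
    have h4 : ((univ \ W.Good lam).card : ℝ) ≤ (M * k) * 2 ^ n / 2 ^ R := by
      rw [le_div_iff₀ h3]; exact h2
    calc |∑ x ∈ univ \ W.Good lam, G x| ≤ (M * k) * 2 ^ n / 2 ^ R := le_trans h1 h4
      _ = 2 ^ n * ((M * k) / 2 ^ R) := by ring
  have hsplit : ∑ x : Fin n → ZMod 2, G x = ∑ x ∈ univ \ W.Good lam, G x + ∑ x ∈ W.Good lam, G x :=
    (Finset.sum_sdiff (Finset.subset_univ _)).symm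
  calc |∑ x : Fin n → ZMod 2, G x| = |∑ x ∈ univ \ W.Good lam, G x + ∑ x ∈ W.Good lam, G x| := by rw [hsplit]
    _ ≤ |∑ x ∈ univ \ W.Good lam, G x| + |∑ x ∈ W.Good lam, G x| := abs_add_le _ _
    _ ≤ 2 ^ n * ((M * k) / 2 ^ R) + 2 ^ n * (4 ^ r * (2 : ℝ) ^ (-((M : ℝ) / 2 ^ k))) := add_le_add hbad hgood
    _ = _ := by ring

/-- The finite inequality. -/
theorem core {n k M B r R Λ D s : ℕ} (hk : 2 ≤ k) (hkD : k ≤ D + 1) (hn : M * k * B ≤ n)
    (hB : 2 * R * Λ * r ≤ B) (hr : 1 ≤ r) (hR : 1 ≤ R) (hΛ : 1 ≤ Λ)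
    (hcount : 3 * r * s * D ^ k < Λ ^ k)
    (π : Fin n → Fin r) (𝒬 : Fin r → Finset (Finset (Fin n)))
    (hs : ∀ a, ((𝒬 a).filter (fun S => k ≤ S.card)).card ≤ s)
    (Φ : (Fin r → ℕ) → (Fin r → ZMod 2) → ZMod 2) :
    |∑ x : Fin n → ZMod 2, sg (hard k M B x + Φ (wt π x) (fun a => polyFun (𝒬 a) x))|
      ≤ 2 ^ n * (2 * r * s / 2 ^ D + (M * k) / 2 ^ R + 4 ^ r * (2 : ℝ) ^ (-((M : ℝ) / 2 ^ k))) := by
  classical
  have h1 := remove_large (n := n) (r := r) (D := D) (s := s) (fun x => hard k M B x)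
    (fun x z => Φ (wt π x) z) 𝒬 (by
      intro a
      refine le_trans (Finset.card_le_card ?_) (hs a)
      intro S hS
      rw [Finset.mem_filter] at hS ⊢
      exact ⟨hS.1, by omega⟩)
  have h2 := core_small (n := n) (k := k) (M := M) (B := B) (r := r) (R := R) (Λ := Λ) (D := D) (s := s)
    hk hn hB hr hR hΛ hcount π (fun a => (𝒬 a).filter (fun S => S.card ≤ D))
    (by intro a S hS; exact (Finset.mem_filter.mp hS).2)
    (by
      intro a
      refine le_trans (Finset.card_le_card ?_) (hs a)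
      intro S hS
      rw [Finset.mem_filter, Finset.mem_filter] at hS
      rw [Finset.mem_filter]
      exact ⟨hS.1.1, hS.2⟩) Φ
  set A := ∑ x : Fin n → ZMod 2, sg (hard k M B x + Φ (wt π x) (fun a => polyFun (𝒬 a) x)) with hA
  set A' := ∑ x : Fin n → ZMod 2,
    sg (hard k M B x + Φ (wt π x) (fun a => polyFun ((𝒬 a).filter (fun S => S.card ≤ D)) x)) with hA'
  have h3 : |A| ≤ |A - A'| + |A'| := by
    calc |A| = |(A - A') + A'| := by ring_nf
      _ ≤ |A - A'| + |A'| := abs_add_le _ _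
  calc |A| ≤ |A - A'| + |A'| := h3
    _ ≤ 2 * r * s * (2 ^ n / 2 ^ D : ℝ) +
        2 ^ n * ((M * k) / 2 ^ R + 4 ^ r * (2 : ℝ) ^ (-((M : ℝ) / 2 ^ k))) := add_le_add h1 h2
    _ = _ := by ring

end Pool.Agent.helper5.CB
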