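import Mathlib

/-!
# CB project (MP_bd3c72_lc): definitions

Correlation of an explicit function (generalized inner product of parities of blocks) with functions of few
`F₂`-polynomials (low degree + sparse) and block weights.
-/

set_option autoImplicit false

open Finset

namespace Pool.Agent.helper5.CB

/-- The sign `(-1)^z`. -/
noncomputable def sg (z : ZMod 2) : ℝ := if z = 0 then 1 else -1

/-- The `F₂`-polynomial function whose (multilinear) monomials are the sets in `𝒮`. -/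
def polyFun {n : ℕ} (𝒮 : Finset (Finset (Fin n))) (x : Fin n → ZMod 2) : ZMod 2 :=
  ∑ S ∈ 𝒮, ∏ i ∈ S, x i

/-- The number of ones of `x` in the block `{i | π i = j}`. -/
def wt {n r : ℕ} (π : Fin n → Fin r) (x : Fin n → ZMod 2) (j : Fin r) : ℕ :=
  (Finset.univ.filter fun i => π i = j ∧ x i = 1).card

/-- Coordinate number `m` of `x` (zero outside the range). -/
def coord {n : ℕ} (x : Fin n → ZMod 2) (m : ℕ) : ZMod 2 := if h : m < n then x ⟨m, h⟩ else 0

/-- The explicit function: `∑_{j<M} ∏_{i<k} ∑_{b<B} x_{(jk+i)B+b}`. -/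
def hard (k M B : ℕ) {n : ℕ} (x : Fin n → ZMod 2) : ZMod 2 :=
  ∑ j ∈ range M, ∏ i ∈ range k, ∑ b ∈ range B, coord x ((j * k + i) * B + b)

/-- Generalized inner product on `M` columns with `k` entries. -/
def gip {M k : ℕ} (y : Fin (M * k) → ZMod 2) : ZMod 2 :=
  ∑ j : Fin M, ∏ i : Fin k, y (finProdFinEquiv (j, i))

/-- Sum of `x` over the block of cell `c` (the variables `i` with `i / B = c`). -/
def ysum (B : ℕ) {n N : ℕ} (x : Fin n → ZMod 2) (c : Fin N) : ZMod 2 :=
  ∑ i ∈ univ.filter (fun i : Fin n => i.val / B = c.val), x i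

/-- `DegLT d g`: all `d`-fold derivatives of `g` vanish (degree less than `d`). -/
def DegLT {V : Type*} [AddCommGroup V] : ℕ → (V → ZMod 2) → Prop
  | 0, g => ∀ y, g y = 0
  | (d + 1), g => ∀ h, DegLT d (fun y => g (y + h) + g y)

/-- Normalised Gowers-type average: `U 0 F = E (-1)^F`, `U (k+1) F = E_h U k (D_h F)`. -/
noncomputable def U {V : Type*} [AddCommGroup V] [Fintype V] : ℕ → (V → ZMod 2) → ℝ
  | 0, F => (∑ y, sg (F y)) / (Fintype.card V : ℝ)
  | (k + 1), F => (∑ h : V, U k (fun y => F (y + h) + F y)) / (Fintype.card V : ℝ)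

/-- `c'` is the previous cell with the same colour as `c`. -/
def IsPrev {N r : ℕ} (fav : Fin N → Fin r) (c' c : Fin N) : Prop :=
  c' < c ∧ fav c' = fav c ∧ ∀ d, c' < d → d < c → fav d ≠ fav c

/-- `c` is the first cell of its colour. -/
def Root {N r : ℕ} (fav : Fin N → Fin r) (c : Fin N) : Prop := ∀ c', c' < c → fav c' ≠ fav c

instance {N r : ℕ} (fav : Fin N → Fin r) (c : Fin N) : Decidable (Root fav c) := by
  unfold Root; infer_instance

instance {N r : ℕ} (fav : Fin N → Fin r) (c' c : Fin N) : Decidable (IsPrev fav c' c) := by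
  unfold IsPrev; infer_instance

/-- Suffix sums inside a colour class. -/
def suf {N r : ℕ} (fav : Fin N → Fin r) (d : Fin N → ZMod 2) (c : Fin N) : ZMod 2 :=
  ∑ c' ∈ univ.filter (fun c' => c ≤ c' ∧ fav c' = fav c), d c'

/-- The vectors `s` vanishing at the roots. -/
def US {N r : ℕ} (fav : Fin N → Fin r) : Finset (Fin N → ZMod 2) :=
  univ.filter fun s => ∀ c, Root fav c → s c = 0

/-- The vectors `y` with the same colour class sums as `y₀`. -/
def VS {N r : ℕ} (fav : Fin N → Fin r) (y₀ : Fin N → ZMod 2) : Finset (Fin N → ZMod 2) :=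
  univ.filter fun y => ∀ j : Fin r, ∑ c ∈ univ.filter (fun c => fav c = j), (y c + y₀ c) = 0

/-- Flip the variables `p c`, `q c` for all non-root cells `c` with `s c = 1`. -/
def flip {n N r : ℕ} (fav : Fin N → Fin r) (p q : Fin N → Fin n) (s : Fin N → ZMod 2)
    (x : Fin n → ZMod 2) (i : Fin n) : ZMod 2 :=
  x i + ∑ c ∈ univ.filter (fun c => ¬ Root fav c ∧ (i = p c ∨ i = q c)), s c

/-- A wiring: for every non-root cell `c` there are `R * Λ` pairs `(a c ρ μ, b c ρ μ)` of variables, `a` in the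
previous cell of the same colour, `b` in the cell `c`, both in the same block of `π`; all these variables are
distinct. -/
structure Wiring {n r N : ℕ} (B R Λ : ℕ) (π : Fin n → Fin r) (fav : Fin N → Fin r) where
  a : Fin N → Fin R → Fin Λ → Fin n
  b : Fin N → Fin R → Fin Λ → Fin n
  a_cell : ∀ c' c ρ μ, IsPrev fav c' c → (a c ρ μ).val / B = c'.val
  b_cell : ∀ c ρ μ, ¬ Root fav c → (b c ρ μ).val / B = c.val
  ab_block : ∀ c ρ μ, ¬ Root fav c → π (a c ρ μ) = π (b c ρ μ)
  a_inj : ∀ c ρ μ c₂ ρ₂ μ₂, ¬ Root fav c → ¬ Root fav c₂ → a c ρ μ = a c₂ ρ₂ μ₂ →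
    c = c₂ ∧ ρ = ρ₂ ∧ μ = μ₂
  b_inj : ∀ c ρ μ c₂ ρ₂ μ₂, ¬ Root fav c → ¬ Root fav c₂ → b c ρ μ = b c₂ ρ₂ μ₂ →
    c = c₂ ∧ ρ = ρ₂ ∧ μ = μ₂
  ab_ne : ∀ c ρ μ c₂ ρ₂ μ₂, ¬ Root fav c → ¬ Root fav c₂ → a c ρ μ ≠ b c₂ ρ₂ μ₂

theorem zmod2_cases (a : ZMod 2) : a = 0 ∨ a = 1 := by revert a; decide

theorem sg_zero : sg 0 = 1 := by simp [sg]

theorem sg_one : sg 1 = -1 := by simp [sg]

theorem sg_add (a b : ZMod 2) : sg (a + b) = sg a * sg b := by
  have h11 : (1 : ZMod 2) + 1 = 0 := by decide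
  rcases zmod2_cases a with rfl | rfl <;> rcases zmod2_cases b with rfl | rfl <;>
    simp [sg_zero, sg_one, h11]

theorem sg_sq (a : ZMod 2) : sg a * sg a = 1 := by
  rcases zmod2_cases a with rfl | rfl <;> simp [sg_zero, sg_one]

theorem abs_sg (a : ZMod 2) : |sg a| = 1 := by
  rcases zmod2_cases a with rfl | rfl <;> simp [sg_zero, sg_one]

theorem sg_sum {ι : Type*} (s : Finset ι) (f : ι → ZMod 2) : sg (∑ i ∈ s, f i) = ∏ i ∈ s, sg (f i) := by
  classical
  induction s using Finset.induction_on with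
  | empty => simp [sg]
  | insert a s ha ih => rw [sum_insert ha, prod_insert ha, sg_add, ih]

end Pool.Agent.helper5.CB
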