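import Pool.Agent.helper5.CB.DegCalc

set_option autoImplicit false
open Finset

namespace Pool.Agent.helper5.CB

variable {N r : ℕ} (fav : Fin N → Fin r)

theorem exists_isPrev {c : Fin N} (hc : ¬ Root fav c) : ∃ c', IsPrev fav c' c := by
  classical
  unfold Root at hc
  push Not at hc
  obtain ⟨c₀, hc₀, hf₀⟩ := hc
  have hne : (univ.filter fun c' : Fin N => c' < c ∧ fav c' = fav c).Nonempty :=
    ⟨c₀, by simp [hc₀, hf₀]⟩
  obtain ⟨m, hm, hmax⟩ := Finset.exists_max_image _ (fun x => x) hne
  simp only [mem_filter, mem_univ, true_and] at hm hmax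
  refine ⟨m, hm.1, hm.2, fun d hd hdc hfd => ?_⟩
  exact absurd (hmax d ⟨hdc, hfd⟩) (not_le.mpr hd)

theorem not_root_of_isPrev {c' c : Fin N} (h : IsPrev fav c' c) : ¬ Root fav c :=
  fun hr => hr c' h.1 h.2.1

theorem isPrev_left_unique {c₁ c₂ c : Fin N} (h₁ : IsPrev fav c₁ c) (h₂ : IsPrev fav c₂ c) : c₁ = c₂ := by
  rcases lt_trichotomy c₁ c₂ with h | h | h
  · exact absurd h₂.2.1 (h₁.2.2 c₂ h h₂.1)
  · exact h
  · exact absurd h₁.2.1 (h₂.2.2 c₁ h h₁.1)

theorem isPrev_right_unique {c c₁ c₂ : Fin N} (h₁ : IsPrev fav c c₁) (h₂ : IsPrev fav c c₂) : c₁ = c₂ := by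
  rcases lt_trichotomy c₁ c₂ with h | h | h
  · exact absurd (h₁.2.1.symm.trans h₂.2.1) (h₂.2.2 c₁ h₁.1 h)
  · exact h
  · exact absurd (h₂.2.1.symm.trans h₁.2.1) (h₁.2.2 c₂ h₂.1 h)

theorem suf_eq_add (d : Fin N → ZMod 2) (c : Fin N) :
    suf fav d c = d c + ∑ c' ∈ univ.filter (fun c' => c < c' ∧ fav c' = fav c), d c' := by
  classical
  unfold suf
  have h : (univ.filter fun c' : Fin N => c ≤ c' ∧ fav c' = fav c) =
      insert c (univ.filter fun c' : Fin N => c < c' ∧ fav c' = fav c) := by
    ext x
    simp only [mem_filter, mem_univ, true_and, mem_insert]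
    constructor
    · rintro ⟨h1, h2⟩
      rcases h1.lt_or_eq with h | h
      · exact Or.inr ⟨h, h2⟩
      · exact Or.inl h.symm
    · rintro (rfl | ⟨h1, h2⟩)
      · exact ⟨le_rfl, rfl⟩
      · exact ⟨h1.le, h2⟩
  rw [h, sum_insert (by simp)]

theorem tele_zmod2_add_self (a : ZMod 2) : a + a = 0 := by revert a; decide

/-- Telescoping. -/
theorem suf_tele (d : Fin N → ZMod 2) (c : Fin N) :
    d c = suf fav d c + ∑ c₂ ∈ univ.filter (fun c₂ => IsPrev fav c c₂), suf fav d c₂ := by
  classical
  by_cases hex : ∃ c₂, IsPrev fav c c₂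
  · obtain ⟨c₂, hc₂⟩ := hex
    have h1 : (univ.filter fun c₂ => IsPrev fav c c₂) = {c₂} := by
      ext x
      simp only [mem_filter, mem_univ, true_and, mem_singleton]
      constructor
      · intro h
        exact isPrev_right_unique fav h hc₂
      · rintro rfl
        exact hc₂
    have h2 : (univ.filter fun c' : Fin N => c < c' ∧ fav c' = fav c) =
        univ.filter fun c' : Fin N => c₂ ≤ c' ∧ fav c' = fav c₂ := by
      ext x
      simp only [mem_filter, mem_univ, true_and]
      constructor
      · rintro ⟨ha, hb⟩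
        refine ⟨?_, hb.trans hc₂.2.1⟩
        by_contra hlt
        push Not at hlt
        exact hc₂.2.2 x ha hlt (hb.trans hc₂.2.1)
      · rintro ⟨ha, hb⟩
        exact ⟨lt_of_lt_of_le hc₂.1 ha, hb.trans hc₂.2.1.symm⟩
    rw [h1, sum_singleton, suf_eq_add fav d c, h2]
    unfold suf
    rw [add_assoc, tele_zmod2_add_self, add_zero]
  · have h1 : (univ.filter fun c₂ => IsPrev fav c c₂) = ∅ := by
      ext x
      simp only [mem_filter, mem_univ, true_and, notMem_empty, iff_false]
      exact fun h => hex ⟨x, h⟩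
    have h2 : (univ.filter fun c' : Fin N => c < c' ∧ fav c' = fav c) = ∅ := by
      by_contra hne
      obtain ⟨m, hm, hmin⟩ := Finset.exists_min_image _ (fun x => x) (Finset.nonempty_iff_ne_empty.mpr hne)
      simp only [mem_filter, mem_univ, true_and] at hm hmin
      refine hex ⟨m, hm.1, hm.2.symm, fun e he hem hfe => ?_⟩
      exact absurd (hmin e ⟨he, hfe.trans hm.2⟩) (not_le.mpr hem)
    rw [h1, sum_empty, add_zero, suf_eq_add fav d c, h2, sum_empty, add_zero]

/-- At a root the suffix sum is the full class sum. -/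
theorem suf_root (d : Fin N → ZMod 2) {c : Fin N} (hc : Root fav c) :
    suf fav d c = ∑ c' ∈ univ.filter (fun c' => fav c' = fav c), d c' := by
  unfold suf
  refine Finset.sum_congr ?_ fun _ _ => rfl
  ext x
  simp only [mem_filter, mem_univ, true_and, and_iff_right_iff_imp]
  intro hx
  by_contra hlt
  push Not at hlt
  exact hc x hlt hx

theorem suf_injective : Function.Injective (suf fav) := by
  intro d d' h
  funext c
  rw [suf_tele fav d c, suf_tele fav d' c, h]

theorem suf_surjective : Function.Surjective (suf fav) :=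
  Finite.surjective_of_injective (suf_injective fav)

theorem exists_root {j : Fin r} (h : ∃ c, fav c = j) : ∃ c, Root fav c ∧ fav c = j := by
  classical
  obtain ⟨c₀, hc₀⟩ := h
  have hne : (univ.filter fun c' : Fin N => fav c' = j).Nonempty := ⟨c₀, by simp [hc₀]⟩
  obtain ⟨m, hm, hmin⟩ := Finset.exists_min_image _ (fun x => x) hne
  simp only [mem_filter, mem_univ, true_and] at hm hmin
  refine ⟨m, fun c' hc' hf => ?_, hm⟩
  exact absurd (hmin c' (hf.trans hm)) (not_le.mpr hc')

theorem suf_mem_US {y₀ y : Fin N → ZMod 2} (hy : y ∈ VS fav y₀) :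
    suf fav (fun c => y c + y₀ c) ∈ US fav := by
  simp only [VS, mem_filter, mem_univ, true_and] at hy
  simp only [US, mem_filter, mem_univ, true_and]
  intro c hc
  rw [suf_root fav _ hc]
  exact hy (fav c)

/-- `y ↦ suf (y + y₀)` is a bijection from `VS` to `US`. -/
theorem sum_US_eq_sum_VS (y₀ : Fin N → ZMod 2) (F : (Fin N → ZMod 2) → ℝ) :
    ∑ s ∈ US fav, F s = ∑ y ∈ VS fav y₀, F (suf fav (fun c => y c + y₀ c)) := by
  classical
  symm
  refine Finset.sum_nbij (fun y => suf fav (fun c => y c + y₀ c)) (fun y hy => suf_mem_US fav hy) ?_ ?_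
    (fun _ _ => rfl)
  · intro y _ y' _ h
    have h1 := suf_injective fav h
    funext c
    exact add_right_cancel (congrFun h1 c)
  · intro s hs
    simp only [US, coe_filter, mem_univ, true_and, Set.mem_ofPred_eq] at hs
    obtain ⟨d, hd⟩ := suf_surjective fav s
    have hdd : (fun c => d c + y₀ c + y₀ c) = d := by
      funext c
      rw [add_assoc, tele_zmod2_add_self, add_zero]
    refine ⟨fun c => d c + y₀ c, ?_, ?_⟩
    · simp only [VS, coe_filter, mem_univ, true_and, Set.mem_ofPred_eq]
      intro j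
      by_cases hj : ∃ c, fav c = j
      · obtain ⟨c, hc, rfl⟩ := exists_root fav hj
        have h1 := suf_root fav d hc
        rw [hd, hs c hc] at h1
        rw [h1]
        exact Finset.sum_congr rfl fun c' _ => by rw [add_assoc, tele_zmod2_add_self, add_zero]
      · rw [Finset.filter_eq_empty_iff.mpr (fun {c} _ hc => hj ⟨c, hc⟩), sum_empty]
    · show suf fav (fun c => d c + y₀ c + y₀ c) = s
      rw [hdd, hd]

theorem two_pow_le_card_US : 2 ^ N ≤ 2 ^ r * (US fav).card := by
  classical
  let Φ : (Fin N → ZMod 2) → (Fin r → ZMod 2) × (US fav) := fun s =>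
    (fun j => ∑ c ∈ univ.filter (fun c => Root fav c ∧ fav c = j), s c,
      ⟨fun c => if Root fav c then 0 else s c, by
        simp only [US, mem_filter, mem_univ, true_and]
        intro c hc
        simp [hc]⟩)
  have hΦ : Function.Injective Φ := by
    intro s s' h
    have h1 : ∀ j, ∑ c ∈ univ.filter (fun c => Root fav c ∧ fav c = j), s c =
        ∑ c ∈ univ.filter (fun c => Root fav c ∧ fav c = j), s' c :=
      fun j => congrFun (congrArg Prod.fst h) j
    have h2 : ∀ c, (if Root fav c then 0 else s c) = (if Root fav c then 0 else s' c) :=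
      fun c => congrFun (congrArg Subtype.val (congrArg Prod.snd h)) c
    funext c
    by_cases hc : Root fav c
    · have h3 : (univ.filter fun c' => Root fav c' ∧ fav c' = fav c) = {c} := by
        ext x
        simp only [mem_filter, mem_univ, true_and, mem_singleton]
        constructor
        · rintro ⟨hx, hfx⟩
          rcases lt_trichotomy x c with h | h | h
          · exact absurd hfx (hc x h)
          · exact h
          · exact absurd hfx.symm (hx c h)
        · rintro rfl
          exact ⟨hc, rfl⟩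
      have h4 := h1 (fav c)
      rwa [h3, sum_singleton, sum_singleton] at h4
    · have h4 := h2 c
      simpa [hc] using h4
  have hcard := Fintype.card_le_of_injective Φ hΦ
  rw [Fintype.card_prod, Fintype.card_coe] at hcard
  simpa [Fintype.card_fun, ZMod.card] using hcard

theorem degLT_suf (y₀ : Fin N → ZMod 2) (c : Fin N) :
    DegLT 2 (fun y : Fin N → ZMod 2 => suf fav (fun c => y c + y₀ c) c) := by
  refine degLT_affine (fun h => suf fav h c) fun y h => ?_
  show suf fav (fun c => (y + h) c + y₀ c) c + suf fav (fun c => y c + y₀ c) c = suf fav h c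
  unfold suf
  rw [← sum_add_distrib]
  refine Finset.sum_congr rfl fun c' _ => ?_
  rw [Pi.add_apply]
  have h1 : y c' + h c' + y₀ c' + (y c' + y₀ c') = h c' + ((y c' + y c') + (y₀ c' + y₀ c')) := by ring
  rw [h1, tele_zmod2_add_self, tele_zmod2_add_self, add_zero, add_zero]

end Pool.Agent.helper5.CB
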