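import Pool.Agent.helper5.CB.DegCalc

set_option autoImplicit false
open Finset

namespace Pool.Agent.helper5.CB

theorem VB_orth {r : ℕ} (w : Fin r → ZMod 2) :
    ∑ γ : Fin r → ZMod 2, sg (∑ j, γ j * w j) = if w = 0 then (2 : ℝ) ^ r else 0 := by
  classical
  have h1 : ∀ γ : Fin r → ZMod 2, sg (∑ j, γ j * w j) = ∏ j, sg (γ j * w j) :=
    fun γ => sg_sum _ _
  have h2 : ∏ j : Fin r, ∑ t : ZMod 2, sg (t * w j) =
      ∑ γ : Fin r → ZMod 2, ∏ j, sg (γ j * w j) := by
    rw [Finset.prod_univ_sum, Fintype.piFinset_univ]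
  have h3 : ∀ j, ∑ t : ZMod 2, sg (t * w j) = if w j = 0 then (2 : ℝ) else 0 := by
    intro j
    have h4 : (∑ t : ZMod 2, sg (t * w j)) = sg (0 * w j) + sg (1 * w j) := by
      rw [show (Finset.univ : Finset (ZMod 2)) = {0, 1} by decide,
        Finset.sum_pair (by decide)]
    rw [h4]
    rcases zmod2_cases (w j) with h | h
    · rw [h, if_pos rfl, mul_zero, mul_zero, sg_zero]
      norm_num
    · rw [h, if_neg (by decide), mul_one, mul_one, sg_zero, sg_one]
      norm_num
  rw [Finset.sum_congr rfl fun γ _ => h1 γ, ← h2, Finset.prod_congr rfl fun j _ => h3 j]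
  by_cases hw : w = 0
  · rw [if_pos hw]
    subst hw
    simp
  · rw [if_neg hw]
    obtain ⟨j, hj⟩ := Function.ne_iff.1 hw
    have hj' : w j ≠ 0 := hj
    refine Finset.prod_eq_zero (Finset.mem_univ j) ?_
    rw [if_neg hj']

theorem VB_self (a : ZMod 2) : a + a = 0 := by
  revert a
  decide

theorem VB_eq {r : ℕ} (v u : Fin r → ZMod 2) : (fun j => v j + u j) = 0 ↔ v = u := by
  constructor
  · intro h
    ext j
    have h1 : v j + u j = 0 := congrFun h j
    have h2 : v j + u j + u j = u j := by rw [h1, zero_add]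
    rw [add_assoc, VB_self, add_zero] at h2
    rw [h2]
  · rintro rfl
    ext j
    exact VB_self (v j)

/-- Fourier expansion of the outer function `Ψ` and of the indicator of `VS`. -/
theorem vs_bound {M k r : ℕ} (hk : 2 ≤ k) (fav : Fin (M * k) → Fin r) (y₀ : Fin (M * k) → ZMod 2)
    (Q : Fin r → (Fin (M * k) → ZMod 2) → ZMod 2) (hQ : ∀ a, DegLT k (Q a))
    (Ψ : (Fin r → ZMod 2) → ZMod 2) (E : ℝ)
    (hE : ∀ g, DegLT k g → |∑ y, sg (gip (M := M) (k := k) y + g y)| ≤ E) :
    |∑ y ∈ VS fav y₀, sg (gip (M := M) (k := k) y + Ψ (fun a => Q a y))| ≤ 2 ^ r * E := by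
  classical
  -- the class sums
  obtain ⟨lam, hlam⟩ : ∃ lam : (Fin (M * k) → ZMod 2) → Fin r → ZMod 2, lam = fun y j =>
      ∑ c ∈ univ.filter (fun c => fav c = j), (y c + y₀ c) := ⟨_, rfl⟩
  have hVS : ∀ y, y ∈ VS fav y₀ ↔ lam y = 0 := by
    intro y
    rw [hlam]
    unfold VS
    rw [mem_filter]
    constructor
    · rintro ⟨-, h⟩
      ext j
      exact h j
    · intro h
      exact ⟨mem_univ _, fun j => congrFun h j⟩
  -- the degrees
  have hdeg : ∀ β u γ : Fin r → ZMod 2, DegLT k (fun y : Fin (M * k) → ZMod 2 =>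
      ∑ j, β j * lam y j + ∑ a, γ a * (Q a y + u a)) := by
    intro β u γ
    refine DegLT.add (DegLT.sum _ fun j _ => ?_) (DegLT.sum _ fun a _ => ?_)
    · refine DegLT.mono (degLT_affine
        (fun h => β j * ∑ c ∈ univ.filter (fun c => fav c = j), h c) fun y h => ?_) hk
      rw [hlam]
      change β j * ∑ c ∈ univ.filter (fun c => fav c = j), ((y c + h c) + y₀ c) +
        β j * ∑ c ∈ univ.filter (fun c => fav c = j), (y c + y₀ c) = _
      rw [← mul_add, ← Finset.sum_add_distrib]
      congr 1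
      refine Finset.sum_congr rfl fun c _ => ?_
      have e1 : y c + h c + y₀ c + (y c + y₀ c) = (y c + y c) + (y₀ c + y₀ c) + h c := by ring
      rw [e1, VB_self, VB_self, add_zero, zero_add]
    · rcases zmod2_cases (γ a) with h | h
      · rw [h]
        have e1 : (fun y : Fin (M * k) → ZMod 2 => (0 : ZMod 2) * (Q a y + u a)) =
            fun _ => 0 := by
          ext y
          rw [zero_mul]
        rw [e1]
        exact degLT_const (by omega) 0
      · rw [h]
        have e1 : (fun y : Fin (M * k) → ZMod 2 => (1 : ZMod 2) * (Q a y + u a)) =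
            fun y => Q a y + u a := by
          ext y
          rw [one_mul]
        rw [e1]
        exact DegLT.add (hQ a) (degLT_const (by omega) (u a))
  -- the triple sum
  have hsum : (∑ β : Fin r → ZMod 2, ∑ u : Fin r → ZMod 2, ∑ γ : Fin r → ZMod 2, sg (Ψ u) *
      ∑ y, sg (gip (M := M) (k := k) y + (∑ j, β j * lam y j + ∑ a, γ a * (Q a y + u a)))) =
      2 ^ r * (2 ^ r * ∑ y ∈ VS fav y₀, sg (gip (M := M) (k := k) y + Ψ (fun a => Q a y))) := by
    have e1 : ∀ y : Fin (M * k) → ZMod 2,
        (∑ β : Fin r → ZMod 2, ∑ u : Fin r → ZMod 2, ∑ γ : Fin r → ZMod 2, sg (Ψ u) *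
          sg (gip (M := M) (k := k) y + (∑ j, β j * lam y j + ∑ a, γ a * (Q a y + u a)))) =
        if lam y = 0 then 2 ^ r * (2 ^ r * sg (gip (M := M) (k := k) y + Ψ (fun a => Q a y)))
          else 0 := by
      intro y
      have e2 : ∀ u : Fin r → ZMod 2, ∑ γ : Fin r → ZMod 2, sg (∑ a, γ a * (Q a y + u a)) =
          if (fun a => Q a y) = u then (2 : ℝ) ^ r else 0 := by
        intro u
        rw [VB_orth]
        exact if_congr (VB_eq _ _) rfl rfl
      calc (∑ β : Fin r → ZMod 2, ∑ u : Fin r → ZMod 2, ∑ γ : Fin r → ZMod 2, sg (Ψ u) *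
          sg (gip (M := M) (k := k) y + (∑ j, β j * lam y j + ∑ a, γ a * (Q a y + u a))))
          = (∑ β : Fin r → ZMod 2, sg (∑ j, β j * lam y j)) *
            ((∑ u : Fin r → ZMod 2, sg (Ψ u) * ∑ γ : Fin r → ZMod 2,
              sg (∑ a, γ a * (Q a y + u a))) * sg (gip (M := M) (k := k) y)) := by
            rw [Finset.sum_mul]
            refine Finset.sum_congr rfl fun β _ => ?_
            rw [Finset.sum_mul, Finset.mul_sum]
            refine Finset.sum_congr rfl fun u _ => ?_
            rw [Finset.mul_sum, Finset.sum_mul, Finset.mul_sum]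
            refine Finset.sum_congr rfl fun γ _ => ?_
            rw [sg_add, sg_add]
            ring
        _ = (if lam y = 0 then (2 : ℝ) ^ r else 0) *
            ((sg (Ψ (fun a => Q a y)) * 2 ^ r) * sg (gip (M := M) (k := k) y)) := by
            rw [VB_orth]
            congr 2
            rw [Finset.sum_congr rfl fun u _ => congrArg (fun z => sg (Ψ u) * z) (e2 u)]
            rw [Finset.sum_eq_single (fun a => Q a y)]
            · rw [if_pos rfl]
            · intro u _ hu
              rw [if_neg fun h => hu h.symm, mul_zero]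
            · intro h
              exact absurd (mem_univ _) h
        _ = _ := by
            split_ifs
            · rw [sg_add]
              ring
            · rw [zero_mul]
    calc (∑ β : Fin r → ZMod 2, ∑ u : Fin r → ZMod 2, ∑ γ : Fin r → ZMod 2, sg (Ψ u) *
        ∑ y, sg (gip (M := M) (k := k) y + (∑ j, β j * lam y j + ∑ a, γ a * (Q a y + u a))))
        = ∑ y, ∑ β : Fin r → ZMod 2, ∑ u : Fin r → ZMod 2, ∑ γ : Fin r → ZMod 2, sg (Ψ u) *
          sg (gip (M := M) (k := k) y + (∑ j, β j * lam y j + ∑ a, γ a * (Q a y + u a))) := by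
          symm
          rw [Finset.sum_comm]
          refine Finset.sum_congr rfl fun β _ => ?_
          rw [Finset.sum_comm]
          refine Finset.sum_congr rfl fun u _ => ?_
          rw [Finset.sum_comm]
          refine Finset.sum_congr rfl fun γ _ => ?_
          rw [Finset.mul_sum]
      _ = ∑ y, if lam y = 0 then
          2 ^ r * (2 ^ r * sg (gip (M := M) (k := k) y + Ψ (fun a => Q a y))) else 0 :=
          Finset.sum_congr rfl fun y _ => e1 y
      _ = _ := by
          rw [← Finset.sum_filter]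
          have e3 : (univ.filter fun y : Fin (M * k) → ZMod 2 => lam y = 0) = VS fav y₀ := by
            ext y
            rw [mem_filter, hVS]
            simp
          rw [e3, Finset.mul_sum, Finset.mul_sum]
  have hcard : ((univ : Finset (Fin r → ZMod 2)).card : ℝ) = 2 ^ r := by
    rw [Finset.card_univ, Fintype.card_fun, ZMod.card, Fintype.card_fin]
    push_cast
    rfl
  have hbound : |∑ β : Fin r → ZMod 2, ∑ u : Fin r → ZMod 2, ∑ γ : Fin r → ZMod 2, sg (Ψ u) *
      ∑ y, sg (gip (M := M) (k := k) y + (∑ j, β j * lam y j + ∑ a, γ a * (Q a y + u a)))| ≤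
      2 ^ r * (2 ^ r * (2 ^ r * E)) := by
    refine (Finset.abs_sum_le_sum_abs _ _).trans ?_
    have e4 : ∀ β : Fin r → ZMod 2, |∑ u : Fin r → ZMod 2, ∑ γ : Fin r → ZMod 2, sg (Ψ u) *
        ∑ y, sg (gip (M := M) (k := k) y + (∑ j, β j * lam y j + ∑ a, γ a * (Q a y + u a)))| ≤
        2 ^ r * (2 ^ r * E) := by
      intro β
      refine (Finset.abs_sum_le_sum_abs _ _).trans ?_
      have e5 : ∀ u : Fin r → ZMod 2, |∑ γ : Fin r → ZMod 2, sg (Ψ u) *
          ∑ y, sg (gip (M := M) (k := k) y +
            (∑ j, β j * lam y j + ∑ a, γ a * (Q a y + u a)))| ≤ 2 ^ r * E := by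
        intro u
        refine (Finset.abs_sum_le_sum_abs _ _).trans ?_
        refine (Finset.sum_le_sum (g := fun _ => E) fun γ _ => ?_).trans ?_
        · rw [abs_mul, abs_sg, one_mul]
          exact hE _ (hdeg β u γ)
        · rw [Finset.sum_const, nsmul_eq_mul, hcard]
      refine (Finset.sum_le_sum (g := fun _ => 2 ^ r * E) fun u _ => e5 u).trans ?_
      rw [Finset.sum_const, nsmul_eq_mul, hcard]
    refine (Finset.sum_le_sum (g := fun _ => 2 ^ r * (2 ^ r * E)) fun β _ => e4 β).trans ?_
    rw [Finset.sum_const, nsmul_eq_mul, hcard]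
  rw [hsum, abs_mul, abs_mul, abs_of_pos (by positivity : (0 : ℝ) < 2 ^ r)] at hbound
  exact le_of_mul_le_mul_left (le_of_mul_le_mul_left hbound (by positivity)) (by positivity)

end Pool.Agent.helper5.CB
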