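import Pool.Agent.helper5.CB.Flip
import Pool.Agent.helper5.CB.Tele
import Pool.Agent.helper5.CB.VBound

set_option autoImplicit false
open Finset

namespace Pool.Agent.helper5.CB

/-- The sum over one orbit: change variables `s = suf (y + y₀)`, `y₀ = ysum x` (`sum_US_eq_sum_VS`); then
`ysum (flip) = y` (`ysum_flip`, `suf_tele`), the weights are constant (`wt_flip`), every monomial is a function of
fewer than `k` affine functions of `y` (`prod_flip_depends`, `degLT_of_depends`, `degLT_suf`), so `vs_bound`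
applies. -/
theorem fixed_x {n M k r B : ℕ} (hk : 2 ≤ k) (fav : Fin (M * k) → Fin r) (p q : Fin (M * k) → Fin n)
    (π : Fin n → Fin r) (x : Fin n → ZMod 2)
    (hp : ∀ c c₂, ¬ Root fav c → ¬ Root fav c₂ → p c = p c₂ → c = c₂)
    (hq : ∀ c c₂, ¬ Root fav c → ¬ Root fav c₂ → q c = q c₂ → c = c₂)
    (hpq : ∀ c c₂, ¬ Root fav c → ¬ Root fav c₂ → p c ≠ q c₂)
    (hπ : ∀ c, ¬ Root fav c → π (p c) = π (q c))
    (hx : ∀ c, ¬ Root fav c → x (p c) + x (q c) = 1)
    (hpc : ∀ c' c, IsPrev fav c' c → (p c).val / B = c'.val)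
    (hqc : ∀ c, ¬ Root fav c → (q c).val / B = c.val)
    (𝒬 : Fin r → Finset (Finset (Fin n)))
    (h𝒬 : ∀ a, ∀ S ∈ 𝒬 a, (univ.filter (fun c => ¬ Root fav c ∧ (p c ∈ S ∨ q c ∈ S))).card < k)
    (Φ : (Fin r → ℕ) → (Fin r → ZMod 2) → ZMod 2) (E : ℝ)
    (hE : ∀ g, DegLT k g → |∑ y, sg (gip (M := M) (k := k) y + g y)| ≤ E) :
    |∑ s ∈ US fav, sg (gip (M := M) (k := k) (ysum B (flip fav p q s x)) +
        Φ (wt π (flip fav p q s x)) (fun a => polyFun (𝒬 a) (flip fav p q s x)))| ≤ 2 ^ r * E := by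
  classical
  obtain ⟨y₀, hy₀⟩ : ∃ y₀ : Fin (M * k) → ZMod 2, y₀ = ysum B x := ⟨_, rfl⟩
  have hprev : ∀ c, ¬ Root fav c → ∃ c', IsPrev fav c' c := fun c hc => exists_isPrev fav hc
  rw [sum_US_eq_sum_VS fav y₀]
  have h1 : ∀ y ∈ VS fav y₀,
      sg (gip (M := M) (k := k) (ysum B (flip fav p q (suf fav (fun c => y c + y₀ c)) x)) +
        Φ (wt π (flip fav p q (suf fav (fun c => y c + y₀ c)) x))
          (fun a => polyFun (𝒬 a) (flip fav p q (suf fav (fun c => y c + y₀ c)) x))) =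
      sg (gip (M := M) (k := k) y + Φ (wt π x)
        (fun a => polyFun (𝒬 a) (flip fav p q (suf fav (fun c => y c + y₀ c)) x))) := by
    intro y hy
    have hs := suf_mem_US fav hy
    have e1 : ysum B (flip fav p q (suf fav (fun c => y c + y₀ c)) x) = y := by
      funext c
      rw [ysum_flip fav p q B x _ hs hp hq hpq hpc hqc hprev c, ← suf_tele, ← hy₀]
      have h2 : y₀ c + y₀ c = 0 := CharTwo.add_self_eq_zero _
      linear_combination h2
    rw [e1, wt_flip fav p q π x _ hp hq hpq hπ hx]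
  rw [Finset.sum_congr rfl h1]
  refine vs_bound hk fav y₀
    (fun a y => polyFun (𝒬 a) (flip fav p q (suf fav (fun c => y c + y₀ c)) x)) ?_ (Φ (wt π x)) E hE
  intro a
  unfold polyFun
  refine DegLT.sum _ fun S hS => ?_
  have h3 := degLT_of_depends (V := Fin (M * k) → ZMod 2)
    (univ.filter (fun c => ¬ Root fav c ∧ (p c ∈ S ∨ q c ∈ S)))
    (fun s => ∏ i ∈ S, flip fav p q s x i)
    (fun s s' h => prod_flip_depends fav p q x S s s' h)
    (fun y => suf fav (fun c => y c + y₀ c)) (fun c => degLT_suf fav y₀ c)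
  exact DegLT.mono h3 (h𝒬 a S hS)

end Pool.Agent.helper5.CB
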