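import Pool.Agent.helper5.CB.Defs

set_option autoImplicit false
open Finset

namespace Pool.Agent.helper5.CB

variable {n N r : ℕ} (fav : Fin N → Fin r) (p q : Fin N → Fin n)

/-- the flip at the first member of a pair -/
theorem Flip_at_p (s : Fin N → ZMod 2) (x : Fin n → ZMod 2)
    (hp : ∀ c c₂, ¬ Root fav c → ¬ Root fav c₂ → p c = p c₂ → c = c₂)
    (hpq : ∀ c c₂, ¬ Root fav c → ¬ Root fav c₂ → p c ≠ q c₂)
    {c : Fin N} (hc : ¬ Root fav c) : flip fav p q s x (p c) = x (p c) + s c := by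
  unfold flip
  have h : univ.filter (fun c₂ => ¬ Root fav c₂ ∧ (p c = p c₂ ∨ p c = q c₂)) = {c} := by
    ext c₂
    rw [Finset.mem_filter, Finset.mem_singleton]
    constructor
    · rintro ⟨-, h1, h2 | h2⟩
      · exact (hp _ _ hc h1 h2).symm
      · exact absurd h2 (hpq _ _ hc h1)
    · rintro rfl
      exact ⟨Finset.mem_univ _, hc, Or.inl rfl⟩
  rw [h, Finset.sum_singleton]

/-- the flip at the second member of a pair -/
theorem Flip_at_q (s : Fin N → ZMod 2) (x : Fin n → ZMod 2)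
    (hq : ∀ c c₂, ¬ Root fav c → ¬ Root fav c₂ → q c = q c₂ → c = c₂)
    (hpq : ∀ c c₂, ¬ Root fav c → ¬ Root fav c₂ → p c ≠ q c₂)
    {c : Fin N} (hc : ¬ Root fav c) : flip fav p q s x (q c) = x (q c) + s c := by
  unfold flip
  have h : univ.filter (fun c₂ => ¬ Root fav c₂ ∧ (q c = p c₂ ∨ q c = q c₂)) = {c} := by
    ext c₂
    rw [Finset.mem_filter, Finset.mem_singleton]
    constructor
    · rintro ⟨-, h1, h2 | h2⟩
      · exact absurd h2.symm (hpq _ _ h1 hc)
      · exact (hq _ _ hc h1 h2).symm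
    · rintro rfl
      exact ⟨Finset.mem_univ _, hc, Or.inr rfl⟩
  rw [h, Finset.sum_singleton]

/-- the flip elsewhere -/
theorem Flip_else (s : Fin N → ZMod 2) (x : Fin n → ZMod 2) {i : Fin n}
    (h : ∀ c, ¬ Root fav c → i ≠ p c ∧ i ≠ q c) : flip fav p q s x i = x i := by
  unfold flip
  have h : univ.filter (fun c₂ => ¬ Root fav c₂ ∧ (i = p c₂ ∨ i = q c₂)) = ∅ := by
    rw [Finset.filter_eq_empty_iff]
    rintro c - ⟨h1, h2 | h2⟩
    · exact (h c h1).1 h2
    · exact (h c h1).2 h2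
  rw [h, Finset.sum_empty, add_zero]

/-- sum over all variables = sum over the other variables plus sum over the pairs -/
theorem Flip_split (F : Fin n → ℕ)
    (hp : ∀ c c₂, ¬ Root fav c → ¬ Root fav c₂ → p c = p c₂ → c = c₂)
    (hq : ∀ c c₂, ¬ Root fav c → ¬ Root fav c₂ → q c = q c₂ → c = c₂)
    (hpq : ∀ c c₂, ¬ Root fav c → ¬ Root fav c₂ → p c ≠ q c₂) :
    ∑ i, F i = ∑ i ∈ univ.filter (fun i => ∀ c, ¬ Root fav c → i ≠ p c ∧ i ≠ q c), F i +
      ∑ c ∈ univ.filter (fun c => ¬ Root fav c), (F (p c) + F (q c)) := by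
  classical
  rw [← Finset.sum_filter_add_sum_filter_not univ (fun i => ∀ c, ¬ Root fav c → i ≠ p c ∧ i ≠ q c) F]
  congr 1
  have h : univ.filter (fun i : Fin n => ¬ ∀ c, ¬ Root fav c → i ≠ p c ∧ i ≠ q c) =
      (univ.filter (fun c => ¬ Root fav c)).image p ∪ (univ.filter (fun c => ¬ Root fav c)).image q := by
    ext i
    rw [Finset.mem_filter, Finset.mem_union, Finset.mem_image, Finset.mem_image]
    constructor
    · rintro ⟨-, h⟩
      push Not at h
      obtain ⟨c, hc, h⟩ := h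
      by_cases h1 : i = p c
      · exact Or.inl ⟨c, Finset.mem_filter.2 ⟨Finset.mem_univ _, hc⟩, h1.symm⟩
      · exact Or.inr ⟨c, Finset.mem_filter.2 ⟨Finset.mem_univ _, hc⟩, (h h1).symm⟩
    · rintro (⟨c, hc, rfl⟩ | ⟨c, hc, rfl⟩)
      · exact ⟨Finset.mem_univ _, fun h => (h c (Finset.mem_filter.1 hc).2).1 rfl⟩
      · exact ⟨Finset.mem_univ _, fun h => (h c (Finset.mem_filter.1 hc).2).2 rfl⟩
  rw [h, Finset.sum_union, Finset.sum_image, Finset.sum_image, Finset.sum_add_distrib]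
  · intro c hc c₂ hc₂ h2
    exact hq _ _ (Finset.mem_filter.1 hc).2 (Finset.mem_filter.1 hc₂).2 h2
  · intro c hc c₂ hc₂ h2
    exact hp _ _ (Finset.mem_filter.1 hc).2 (Finset.mem_filter.1 hc₂).2 h2
  · rw [Finset.disjoint_left]
    intro i h1 h2
    rw [Finset.mem_image] at h1 h2
    obtain ⟨c, hc, rfl⟩ := h1
    obtain ⟨c₂, hc₂, h3⟩ := h2
    exact hpq _ _ (Finset.mem_filter.1 hc).2 (Finset.mem_filter.1 hc₂).2 h3.symm

/-- The weights do not change: each flipped pair has exactly one `1` and lies in one block. -/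
theorem wt_flip (π : Fin n → Fin r) (x : Fin n → ZMod 2) (s : Fin N → ZMod 2)
    (hp : ∀ c c₂, ¬ Root fav c → ¬ Root fav c₂ → p c = p c₂ → c = c₂)
    (hq : ∀ c c₂, ¬ Root fav c → ¬ Root fav c₂ → q c = q c₂ → c = c₂)
    (hpq : ∀ c c₂, ¬ Root fav c → ¬ Root fav c₂ → p c ≠ q c₂)
    (hπ : ∀ c, ¬ Root fav c → π (p c) = π (q c))
    (hx : ∀ c, ¬ Root fav c → x (p c) + x (q c) = 1) :
    wt π (flip fav p q s x) = wt π x := by
  classical
  funext j
  unfold wt
  rw [Finset.card_filter, Finset.card_filter, Flip_split fav p q _ hp hq hpq,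
    Flip_split fav p q _ hp hq hpq]
  have key : ∀ a b : ZMod 2, a + b = 1 → (if a = 1 then 1 else 0) + (if b = 1 then 1 else 0) = 1 := by
    decide
  have key2 : ∀ (P : Prop) [Decidable P] (a b : ZMod 2), a + b = 1 →
      (if P ∧ a = 1 then 1 else 0) + (if P ∧ b = 1 then 1 else 0) = if P then 1 else 0 := by
    intro P _ a b hab
    by_cases hP : P
    · simpa [hP] using key a b hab
    · simp [hP]
  congr 1
  · refine Finset.sum_congr rfl fun i hi => ?_
    rw [Flip_else fav p q s x (Finset.mem_filter.1 hi).2]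
  · refine Finset.sum_congr rfl fun c hc => ?_
    have hc' := (Finset.mem_filter.1 hc).2
    rw [Flip_at_p fav p q s x hp hpq hc', Flip_at_q fav p q s x hq hpq hc', hπ c hc',
      key2 _ _ _ (hx c hc')]
    refine key2 _ _ _ ?_
    have h1 : ∀ t : ZMod 2, t + t = 0 := by decide
    calc x (p c) + s c + (x (q c) + s c) = (x (p c) + x (q c)) + (s c + s c) := by ring
      _ = 1 := by rw [h1, add_zero, hx c hc']

/-- Effect on the cell sums. -/
theorem ysum_flip (B : ℕ) (x : Fin n → ZMod 2) (s : Fin N → ZMod 2) (hs : s ∈ US fav)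
    (hp : ∀ c c₂, ¬ Root fav c → ¬ Root fav c₂ → p c = p c₂ → c = c₂)
    (hq : ∀ c c₂, ¬ Root fav c → ¬ Root fav c₂ → q c = q c₂ → c = c₂)
    (hpq : ∀ c c₂, ¬ Root fav c → ¬ Root fav c₂ → p c ≠ q c₂)
    (hpc : ∀ c' c, IsPrev fav c' c → (p c).val / B = c'.val)
    (hqc : ∀ c, ¬ Root fav c → (q c).val / B = c.val)
    (hprev : ∀ c, ¬ Root fav c → ∃ c', IsPrev fav c' c) (c : Fin N) :
    ysum B (flip fav p q s x) c
      = ysum B x c + (s c + ∑ c₂ ∈ univ.filter (fun c₂ => IsPrev fav c c₂), s c₂) := by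
  classical
  unfold ysum flip
  rw [Finset.sum_add_distrib]
  congr 1
  have h1 : ∑ i ∈ univ.filter (fun i : Fin n => i.val / B = c.val),
      ∑ c₂ ∈ univ.filter (fun c₂ => ¬ Root fav c₂ ∧ (i = p c₂ ∨ i = q c₂)), s c₂ =
      ∑ c₂ ∈ univ.filter (fun c₂ => ¬ Root fav c₂),
        ((if c₂ = c then s c₂ else 0) + (if IsPrev fav c c₂ then s c₂ else 0)) := by
    have h2 : ∀ i : Fin n, ∑ c₂ ∈ univ.filter (fun c₂ => ¬ Root fav c₂ ∧ (i = p c₂ ∨ i = q c₂)), s c₂ =
        ∑ c₂ ∈ univ.filter (fun c₂ => ¬ Root fav c₂),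
          ((if i = q c₂ then s c₂ else 0) + (if i = p c₂ then s c₂ else 0)) := by
      intro i
      rw [← Finset.filter_filter, Finset.sum_filter]
      refine Finset.sum_congr rfl fun c₂ hc₂ => ?_
      have hne := hpq c₂ c₂ (Finset.mem_filter.1 hc₂).2 (Finset.mem_filter.1 hc₂).2
      by_cases h3 : i = p c₂
      · have h4 : i ≠ q c₂ := fun h => hne (h3 ▸ h)
        simp [h3, hne]
      · by_cases h4 : i = q c₂
        · simp [h4, hne.symm]
        · simp [h3, h4]
    rw [Finset.sum_congr rfl fun i _ => h2 i, Finset.sum_comm]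
    refine Finset.sum_congr rfl fun c₂ hc₂ => ?_
    have hc₂' := (Finset.mem_filter.1 hc₂).2
    rw [Finset.sum_add_distrib]
    congr 1
    · rw [Finset.sum_ite_eq']
      have h3 : (q c₂ ∈ univ.filter (fun i : Fin n => i.val / B = c.val)) ↔ c₂ = c := by
        rw [Finset.mem_filter, hqc c₂ hc₂']
        constructor
        · rintro ⟨-, h⟩
          exact Fin.ext h
        · rintro rfl
          exact ⟨Finset.mem_univ _, rfl⟩
      simp only [h3]
    · rw [Finset.sum_ite_eq']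
      have h3 : (p c₂ ∈ univ.filter (fun i : Fin n => i.val / B = c.val)) ↔ IsPrev fav c c₂ := by
        rw [Finset.mem_filter]
        constructor
        · rintro ⟨-, h⟩
          obtain ⟨c', hc'⟩ := hprev c₂ hc₂'
          rw [hpc c' c₂ hc'] at h
          have : c' = c := Fin.ext h
          rwa [this] at hc'
        · intro h
          exact ⟨Finset.mem_univ _, hpc c c₂ h⟩
      simp only [h3]
  rw [h1, Finset.sum_add_distrib]
  congr 1
  · rw [Finset.sum_ite_eq']
    by_cases hc : Root fav c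
    · have h2 : s c = 0 := (Finset.mem_filter.1 hs).2 c hc
      simp [hc, h2]
    · simp [hc]
  · rw [← Finset.sum_filter, Finset.filter_filter]
    refine Finset.sum_congr ?_ fun _ _ => rfl
    ext c₂
    rw [Finset.mem_filter, Finset.mem_filter]
    constructor
    · rintro ⟨h2, -, h3⟩
      exact ⟨h2, h3⟩
    · rintro ⟨h2, h3⟩
      exact ⟨h2, fun h4 => h4 c h3.1 h3.2.1, h3⟩

/-- A monomial of the flipped point depends only on the `s c` with `p c ∈ S` or `q c ∈ S`. -/
theorem prod_flip_depends (x : Fin n → ZMod 2) (S : Finset (Fin n)) (s s' : Fin N → ZMod 2)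
    (h : ∀ c ∈ univ.filter (fun c => ¬ Root fav c ∧ (p c ∈ S ∨ q c ∈ S)), s c = s' c) :
    ∏ i ∈ S, flip fav p q s x i = ∏ i ∈ S, flip fav p q s' x i := by
  refine Finset.prod_congr rfl fun i hi => ?_
  unfold flip
  congr 1
  refine Finset.sum_congr rfl fun c hc => h c ?_
  rw [Finset.mem_filter] at hc ⊢
  refine ⟨hc.1, hc.2.1, ?_⟩
  rcases hc.2.2 with h1 | h1
  · exact Or.inl (h1 ▸ hi)
  · exact Or.inr (h1 ▸ hi)

end Pool.Agent.helper5.CB
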