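import Pool.Agent.helper5.CB.Defs

set_option autoImplicit false
open Finset

namespace Pool.Agent.helper5.CB

variable {V : Type*} [AddCommGroup V] [Fintype V]

theorem sum_sg_sq (F : V → ZMod 2) :
    (∑ y, sg (F y)) ^ 2 = ∑ h : V, ∑ y, sg (F (y + h) + F y) := by
  rw [Finset.sum_comm, pow_two, Finset.mul_sum]
  refine Finset.sum_congr rfl fun y _ => ?_
  rw [← Equiv.sum_comp (Equiv.addLeft y) fun z => sg (F z), Finset.sum_mul]
  refine Finset.sum_congr rfl fun h _ => ?_
  rw [sg_add]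
  rfl

/-- power means with exponents `2 ^ k` -/
theorem Pow_mean {ι : Type*} [Fintype ι] (hN : 0 < Fintype.card ι) (k : ℕ) (a : ι → ℝ) :
    ((∑ i, a i) / (Fintype.card ι : ℝ)) ^ (2 ^ k) ≤ (∑ i, a i ^ (2 ^ k)) / (Fintype.card ι : ℝ) := by
  have hN' : (0 : ℝ) < (Fintype.card ι : ℝ) := by exact_mod_cast hN
  induction k generalizing a with
  | zero => simp
  | succ k ih =>
    have h1 : ((∑ i, a i) / (Fintype.card ι : ℝ)) ^ 2 ≤ (∑ i, a i ^ 2) / (Fintype.card ι : ℝ) := by
      have h := sq_sum_le_card_mul_sum_sq (s := (Finset.univ : Finset ι)) (f := a)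
      rw [Finset.card_univ] at h
      rw [div_pow, div_le_div_iff₀ (by positivity) hN']
      nlinarith [mul_le_mul_of_nonneg_right h hN'.le]
    have h2 := ih fun i => a i ^ 2
    have h3 : (((∑ i, a i) / (Fintype.card ι : ℝ)) ^ 2) ^ (2 ^ k) ≤
        ((∑ i, a i ^ 2) / (Fintype.card ι : ℝ)) ^ (2 ^ k) := pow_le_pow_left₀ (sq_nonneg _) h1 _
    rw [← pow_mul, ← pow_succ'] at h3
    refine h3.trans (h2.trans (le_of_eq ?_))
    congr 1
    refine Finset.sum_congr rfl fun i _ => ?_
    rw [← pow_mul, ← pow_succ']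

/-- Iterated Cauchy-Schwarz (induction on `k`, general `F`; convexity of `t ^ 2 ^ k`). -/
theorem pow_le_U (k : ℕ) (F : V → ZMod 2) : (U 0 F) ^ (2 ^ k) ≤ U k F := by
  have hN : 0 < Fintype.card V := Fintype.card_pos_iff.2 ⟨0⟩
  have hN' : (0 : ℝ) < (Fintype.card V : ℝ) := by exact_mod_cast hN
  induction k generalizing F with
  | zero => simp
  | succ k ih =>
    have h1 : (U 0 F) ^ 2 = (∑ h : V, U 0 (fun y => F (y + h) + F y)) / (Fintype.card V : ℝ) := by
      simp only [U]
      rw [div_pow, sum_sg_sq, ← Finset.sum_div, div_div, pow_two]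
    have h2 := Pow_mean hN k fun h : V => U 0 (fun y => F (y + h) + F y)
    rw [← h1, ← pow_mul, ← pow_succ'] at h2
    refine h2.trans ?_
    rw [U]
    exact (div_le_div_iff_of_pos_right hN').2 (Finset.sum_le_sum fun h _ => ih _)

end Pool.Agent.helper5.CB
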