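import Pool.Agent.helper5.CB.Prod
import Pool.Agent.helper5.CB.Pow

set_option autoImplicit false
open Finset

namespace Pool.Agent.helper5.CB

/-- Key identity: for `h i₀ = 1` the derivative of the monomial `∏ w_i` (`k+1` variables) in direction `h` is the
monomial in `k` variables composed with a surjective affine map. -/
theorem derivative_mono {k : ℕ} (h : Fin (k + 1) → ZMod 2) (i₀ : Fin (k + 1)) (h0 : h i₀ = 1)
    (w : Fin (k + 1) → ZMod 2) :
    (∏ i, (w + h) i) + ∏ i, w i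
      = ∏ l : Fin k, (w (i₀.succAbove l) + h (i₀.succAbove l) * w i₀ + h (i₀.succAbove l)) := by
  rw [Fin.prod_univ_succAbove _ i₀, Fin.prod_univ_succAbove (fun i => w i) i₀]
  simp only [Pi.add_apply]
  rw [h0]
  have h11 : (1 : ZMod 2) + 1 = 0 := by decide
  rcases zmod2_cases (w i₀) with hw | hw
  · rw [hw]
    simp
  · rw [hw, h11]
    rw [zero_mul, zero_add, one_mul]
    refine prod_congr rfl (fun l _ => ?_)
    rw [mul_one, add_assoc]
    have h2 : h (i₀.succAbove l) + h (i₀.succAbove l) = 0 := CharTwo.add_self_eq_zero _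
    rw [h2, add_zero]

/-- the linear part of the affine map -/
def Mono_phi {k : ℕ} (h : Fin (k + 1) → ZMod 2) (i₀ : Fin (k + 1)) :
    (Fin (k + 1) → ZMod 2) →+ (Fin k → ZMod 2) where
  toFun w := fun l => w (i₀.succAbove l) + h (i₀.succAbove l) * w i₀
  map_zero' := by funext l; simp
  map_add' := by
    intro x y
    funext l
    simp only [Pi.add_apply]
    ring

theorem Mono_phi_surj {k : ℕ} (h : Fin (k + 1) → ZMod 2) (i₀ : Fin (k + 1)) :
    Function.Surjective (Mono_phi h i₀) := by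
  intro y
  refine ⟨i₀.insertNth 0 y, ?_⟩
  funext l
  show (i₀.insertNth 0 y : Fin (k + 1) → ZMod 2) (i₀.succAbove l) +
    h (i₀.succAbove l) * (i₀.insertNth 0 y : Fin (k + 1) → ZMod 2) i₀ = y l
  rw [Fin.insertNth_apply_succAbove, Fin.insertNth_apply_same, mul_zero, add_zero]

theorem Mono_card (k : ℕ) : (Fintype.card (Fin k → ZMod 2) : ℝ) = 2 ^ k := by
  rw [Fintype.card_fun, ZMod.card, Fintype.card_fin]
  push_cast
  rfl

/-- `U k 0 = 1` -/
theorem Mono_U_zero {V : Type*} [AddCommGroup V] [Fintype V] (k : ℕ) :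
    U k (fun _ : V => (0 : ZMod 2)) = 1 := by
  have hc : (Fintype.card V : ℝ) ≠ 0 := by
    have : Nonempty V := ⟨0⟩
    exact_mod_cast Fintype.card_ne_zero
  induction k with
  | zero =>
    simp only [U, sg_zero, sum_const, card_univ, nsmul_eq_mul, mul_one]
    exact div_self hc
  | succ k ih =>
    simp only [U, add_zero]
    rw [ih, sum_const, card_univ, nsmul_eq_mul, mul_one]
    exact div_self hc

/-- `1 - U (k+1) m_(k+1) = (1 - 2^-(k+1)) (1 - U k m_k)`, `U 0 m_0 = -1`. -/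
theorem U_mono_succ (k : ℕ) :
    U (k + 1) (fun w : Fin (k + 1) → ZMod 2 => ∏ i, w i)
      = 1 / 2 ^ (k + 1) + (1 - 1 / 2 ^ (k + 1)) * U k (fun w : Fin k → ZMod 2 => ∏ i, w i) := by
  have key : ∀ h : Fin (k + 1) → ZMod 2, h ≠ 0 →
      U k (fun w : Fin (k + 1) → ZMod 2 => (∏ i, (w + h) i) + ∏ i, w i) =
        U k (fun w : Fin k → ZMod 2 => ∏ i, w i) := by
    intro h hne
    obtain ⟨i₀, hi⟩ : ∃ i₀, h i₀ ≠ 0 := by
      by_contra hcon
      push Not at hcon
      exact hne (funext hcon)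
    have h0 : h i₀ = 1 := (zmod2_cases (h i₀)).resolve_left hi
    have h1 : (fun w : Fin (k + 1) → ZMod 2 => (∏ i, (w + h) i) + ∏ i, w i) =
        fun w => (fun v : Fin k → ZMod 2 => ∏ l, v l)
          (Mono_phi h i₀ w + fun l => h (i₀.succAbove l)) := by
      funext w
      rw [derivative_mono h i₀ h0 w]
      rfl
    rw [h1]
    exact U_comp_affine k _ (Mono_phi h i₀) (Mono_phi_surj h i₀) _
  have hzero : U k (fun w : Fin (k + 1) → ZMod 2 => (∏ i, (w + 0) i) + ∏ i, w i) = 1 := by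
    have : (fun w : Fin (k + 1) → ZMod 2 => (∏ i, (w + 0) i) + ∏ i, w i) = fun _ => 0 := by
      funext w
      rw [add_zero]
      exact CharTwo.add_self_eq_zero _
    rw [this]
    exact Mono_U_zero k
  show (∑ h : Fin (k + 1) → ZMod 2, U k (fun w : Fin (k + 1) → ZMod 2 =>
    (∏ i, (w + h) i) + ∏ i, w i)) / (Fintype.card (Fin (k + 1) → ZMod 2) : ℝ) = _
  rw [← add_sum_erase univ _ (mem_univ (0 : Fin (k + 1) → ZMod 2)), hzero,
    sum_congr rfl (fun h hh => key h (ne_of_mem_erase hh)), sum_const,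
    card_erase_of_mem (mem_univ _), card_univ, nsmul_eq_mul,
    Nat.cast_sub (by
      have : Nonempty (Fin (k + 1) → ZMod 2) := ⟨0⟩
      exact Fintype.card_pos), Mono_card, Nat.cast_one]
  have h2 : (2 : ℝ) ^ (k + 1) ≠ 0 := by positivity
  field_simp

/-- the exact value -/
theorem Mono_val (k : ℕ) : U k (fun w : Fin k → ZMod 2 => ∏ i, w i) =
    1 - 2 * ∏ i ∈ range k, (1 - 1 / 2 ^ (i + 1) : ℝ) := by
  induction k with
  | zero =>
    simp only [U, univ_eq_empty, prod_empty, range_zero, sg_one, sum_const, card_univ]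
    norm_num
  | succ k ih =>
    rw [U_mono_succ, ih, prod_range_succ]
    ring

theorem Mono_prod (k : ℕ) (hk : 1 ≤ k) :
    (1 / 4 : ℝ) + 1 / 2 ^ (k + 1) ≤ ∏ i ∈ range k, (1 - 1 / 2 ^ (i + 1) : ℝ) ∧
      ∏ i ∈ range k, (1 - 1 / 2 ^ (i + 1) : ℝ) ≤ 1 / 2 := by
  induction k, hk using Nat.le_induction with
  | base => norm_num [prod_range_succ]
  | succ k hk ih =>
    rw [prod_range_succ]
    obtain ⟨h1, h2⟩ := ih
    have hpos : (0 : ℝ) < 1 / 2 ^ (k + 1) := by positivity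
    have hle : (1 : ℝ) / 2 ^ (k + 1) ≤ 1 / 4 := by
      apply one_div_le_one_div_of_le (by norm_num)
      calc (4 : ℝ) = 2 ^ 2 := by norm_num
        _ ≤ 2 ^ (k + 1) := pow_le_pow_right₀ (by norm_num) (by omega)
    have he : (1 : ℝ) / 2 ^ (k + 1 + 1) = (1 / 2 ^ (k + 1)) / 2 := by
      rw [pow_succ]; field_simp
    set t : ℝ := 1 / 2 ^ (k + 1) with ht
    rw [he]
    constructor
    · nlinarith
    · nlinarith

/-- `0 ≤ U k m_k ≤ 1/2` for `k ≥ 1` (`1 - U k m_k = 2 ∏_{i=1}^k (1 - 2^-i) ≥ 1/2 + 2^-k`). -/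
theorem U_mono_bound {k : ℕ} (hk : 1 ≤ k) :
    0 ≤ U k (fun w : Fin k → ZMod 2 => ∏ i, w i) ∧
      U k (fun w : Fin k → ZMod 2 => ∏ i, w i) ≤ 1 / 2 := by
  rw [Mono_val]
  obtain ⟨h1, h2⟩ := Mono_prod k hk
  have hpos : (0 : ℝ) < 1 / 2 ^ (k + 1) := by positivity
  constructor <;> linarith

end Pool.Agent.helper5.CB
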