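import Pool.Agent.helper5.CB.Defs

/-!
# CB project (MP_bd3c72_lc): invariance and product formula for `U`

Statements: helper5. Proofs: helper6.
-/

set_option autoImplicit false
open Finset

namespace Pool.Agent.helper5.CB

/-- averages over a group and over a quotient -/
theorem Prod_avg {V V' : Type*} [AddCommGroup V] [Fintype V] [AddCommGroup V'] [Fintype V']
    (φ : V →+ V') (hφ : Function.Surjective φ) (g : V' → ℝ) :
    (∑ y : V, g (φ y)) / (Fintype.card V : ℝ) = (∑ v : V', g v) / (Fintype.card V' : ℝ) := by
  classical
  have hfib : ∀ v : V', (univ.filter fun y : V => φ y = v).card =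
      (univ.filter fun y : V => φ y = 0).card := by
    intro v
    exact AddMonoidHom.card_fiber_eq_of_mem_range φ (hφ v) (hφ 0)
  set c := (univ.filter fun y : V => φ y = 0).card with hc
  have hcpos : 0 < c := Finset.card_pos.2 ⟨0, by simp⟩
  have h1 : ∑ y : V, g (φ y) = c * ∑ v : V', g v := by
    rw [← Finset.sum_fiberwise univ φ (fun y => g (φ y)), Finset.mul_sum]
    refine Finset.sum_congr rfl fun v _ => ?_
    rw [Finset.sum_congr rfl (fun y hy => by rw [(Finset.mem_filter.1 hy).2] :
      ∀ y ∈ univ.filter (fun y : V => φ y = v), g (φ y) = g v), Finset.sum_const, hfib v,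
      nsmul_eq_mul]
  have h2 : (Fintype.card V : ℝ) = c * (Fintype.card V' : ℝ) := by
    have h3 := Finset.card_eq_sum_card_fiberwise (f := φ) (s := (univ : Finset V))
      (t := (univ : Finset V')) (fun _ _ => by simp)
    rw [Finset.sum_congr rfl fun v _ => hfib v, Finset.sum_const, Finset.card_univ,
      Finset.card_univ, smul_eq_mul, mul_comm] at h3
    exact_mod_cast h3
  have hc0 : (c : ℝ) ≠ 0 := by exact_mod_cast hcpos.ne'
  have hV0 : (Fintype.card V' : ℝ) ≠ 0 := by exact_mod_cast Fintype.card_ne_zero
  rw [h1, h2]
  field_simp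

/-- Invariance under surjective affine maps (induction on `k`, general `F`; for the step sum over the fibres of
`φ`, all of size `card V / card V'`). -/
theorem U_comp_affine {V V' : Type*} [AddCommGroup V] [Fintype V] [AddCommGroup V'] [Fintype V']
    (k : ℕ) (F : V' → ZMod 2) (φ : V →+ V') (hφ : Function.Surjective φ) (v₀ : V') :
    U k (fun y => F (φ y + v₀)) = U k F := by
  induction k generalizing F with
  | zero =>
    simp only [U]
    rw [Prod_avg φ hφ (fun v => sg (F (v + v₀)))]
    congr 1
    exact Fintype.sum_equiv (Equiv.addRight v₀) _ _ fun v => rfl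
  | succ k ih =>
    simp only [U]
    have h1 : ∀ h : V, U k (fun y : V => F (φ (y + h) + v₀) + F (φ y + v₀)) =
        U k (fun w : V' => F (w + φ h) + F w) := by
      intro h
      rw [← ih (fun w : V' => F (w + φ h) + F w)]
      congr 1
      funext y
      rw [map_add, add_right_comm]
    rw [Finset.sum_congr rfl fun h _ => h1 h,
      Prod_avg φ hφ (fun h => U k (fun w : V' => F (w + h) + F w))]

/-- the average of a product function over a power -/
theorem Prod_avg_pi {ι W : Type*} [Fintype ι] [DecidableEq ι] [Fintype W] (G : ι → W → ℝ) :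
    (∑ h : ι → W, ∏ j, G j (h j)) / (Fintype.card (ι → W) : ℝ) =
      ∏ j, ((∑ w : W, G j w) / (Fintype.card W : ℝ)) := by
  rw [Finset.prod_div_distrib, Finset.prod_univ_sum, Fintype.piFinset_univ]
  congr 1
  rw [Fintype.card_pi]
  push_cast
  rfl

/-- Product formula (induction on `k`, general `f`; `Finset.prod_univ_sum`). -/
theorem U_pi {ι W : Type*} [Fintype ι] [DecidableEq ι] [AddCommGroup W] [Fintype W]
    (k : ℕ) (f : ι → W → ZMod 2) :
    U k (fun y : ι → W => ∑ j, f j (y j)) = ∏ j, U k (f j) := by
  induction k generalizing f with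
  | zero =>
    simp only [U]
    rw [← Prod_avg_pi (fun j w => sg (f j w))]
    congr 1
    exact Finset.sum_congr rfl fun y _ => sg_sum _ _
  | succ k ih =>
    simp only [U]
    rw [← Prod_avg_pi (fun j h => U k (fun y => f j (y + h) + f j y))]
    congr 1
    refine Finset.sum_congr rfl fun h _ => ?_
    rw [← ih (fun j w => f j (w + h j) + f j w)]
    congr 1
    funext y
    rw [Finset.sum_add_distrib]
    rfl

end Pool.Agent.helper5.CB
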